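import Pool.Agent.Run7.h200.SP.Frb

/-!
# Stark's conjecture for alternating groups: the assembly
-/

set_option autoImplicit false
set_option linter.unusedSectionVars false

open Equiv Function Pool.Agent.R389 Pool.Agent.W446.AS Pool.Agent.H541R3.ART
open Pool.Agent.K4H74.ST (IsChar ArtinInvariant Val indChar)
open NumberField Pool.Agent.K4H74.SK

namespace Run7.h200.SP

/-- the alternating group itself -/
def A0 (Y : Type) [Fintype Y] [DecidableEq Y] : AI (alternatingGroup Y) Y where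
  ι := (alternatingGroup Y).subtype
  inj := Subtype.val_injective
  even x := Equiv.Perm.mem_alternatingGroup.mp x.2
  mem σ h := ⟨⟨σ, Equiv.Perm.mem_alternatingGroup.mpr h⟩, rfl⟩

section tr

variable {Y : Type} [Fintype Y] [DecidableEq Y] {G G' : Type} [Group G] [Group G']

/-- transport -/
def AI.tr (A : AI G Y) (e : G ≃* G') : AI G' Y where
  ι := A.ι.comp e.symm.toMonoidHom
  inj := A.inj.comp e.symm.injective
  even x := A.even _
  mem σ h := by
    obtain ⟨x, hx⟩ := A.mem σ h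
    refine ⟨e x, ?_⟩
    change A.ι (e.symm (e x)) = σ
    rw [MulEquiv.symm_apply_apply, hx]

variable {P : Finset ℕ} {C : Cmp Y P} {A : AI G Y}

/-- transport -/
def Img.tr (I : Img A C) (e : G ≃* G') : Img (A.tr e) C where
  ψ := e.toMonoidHom.comp I.ψ
  hψ w := by
    change A.ι (e.symm (e (I.ψ w))) = _
    rw [MulEquiv.symm_apply_apply, I.hψ]

lemma ind_congr' {H H' : Subgroup G} (hH : H = H') {f : H → ℂ} {f' : H' → ℂ}
    (h : ∀ (x : G) (hx : x ∈ H) (hx' : x ∈ H'), f ⟨x, hx⟩ = f' ⟨x, hx'⟩) : ind H f = ind H' f' := by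
  subst hH
  have : f = f' := funext fun x => h x.1 x.2 x.2
  rw [this]

lemma Img.tr_ind [Finite G] [Finite G'] (I : Img A C) (e : G ≃* G') :
    ind (I.tr e).H (fun h => (((I.tr e).lam h : ℂˣ) : ℂ))
      = ind (I.H.map (e : G →* G')) (fun h => ((mapChr e I.H I.lam h : ℂˣ) : ℂ)) := by
  have hH : (I.tr e).H = I.H.map (e : G →* G') := by
    unfold Img.H
    rw [MonoidHom.map_range]
    rfl
  refine ind_congr' hH ?_
  rintro x hx hx'
  obtain ⟨w, rfl⟩ := hx
  have h1 : (I.tr e).lam ⟨(I.tr e).ψ w, ⟨w, rfl⟩⟩ = C.lam w := by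
    rw [← (I.tr e).lam_e w]
    rfl
  have h2 : mapChr e I.H I.lam ⟨(I.tr e).ψ w, hx'⟩ = C.lam w := by
    have h3 : (⟨(I.tr e).ψ w, hx'⟩ : I.H.map (e : G →* G')) = e.subgroupMap I.H (I.e w) := rfl
    rw [h3]
    change I.lam ((e.subgroupMap I.H).symm (e.subgroupMap I.H (I.e w))) = _
    rw [MulEquiv.symm_apply_apply, I.lam_e]
  rw [h1, h2]

lemma Img.tr_D [Finite G] [Finite G'] (I : Img A C) (e : G ≃* G') : (I.tr e).D = I.D := by
  rw [Img.D_eq, Img.D_eq]

end tr

section irr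

variable {G : Type} [Group G] [Finite G]

/-- `χ` is the character of an irreducible representation. -/
def IsIrrChr {G : Type} [Group G] (χ : G → ℂ) : Prop :=
  IsChr χ ∧ χ ≠ 0 ∧ ∀ χ₁ χ₂ : G → ℂ, IsChr χ₁ → IsChr χ₂ → χ = χ₁ + χ₂ → χ₁ = 0 ∨ χ₂ = 0

lemma mem_irr {χ : G → ℂ} (h : IsIrrChr χ) : χ ∈ Irr G := by
  obtain ⟨h1, h2, h3⟩ := h
  have key : ∀ f ∈ AddSubmonoid.closure (Irr G),
      f = 0 ∨ ∃ ψ ∈ Irr G, ∃ ψ' ∈ AddSubmonoid.closure (Irr G), f = ψ + ψ' := by
    intro f hf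
    induction hf using AddSubmonoid.closure_induction with
    | mem ψ hψ => exact Or.inr ⟨ψ, hψ, 0, zero_mem _, by rw [add_zero]⟩
    | zero => exact Or.inl rfl
    | add a b ha hb iha ihb =>
      rcases iha with rfl | ⟨ψ, hψ, ψ', hψ', rfl⟩
      · rw [zero_add]; exact ihb
      · exact Or.inr ⟨ψ, hψ, ψ' + b, add_mem hψ' hb, by rw [add_assoc]⟩
  have hm := Pool.Agent.K4H74.SC.IsChar.mem (isChr_iff.mp h1)
  rcases key χ hm with h | ⟨ψ, hψ, ψ', hψ', he⟩
  · exact absurd h h2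
  · have e1 : IsChr ψ := isChr_iff.mpr (Pool.Agent.K4H74.SC.isChar_of_mem
      (AddSubmonoid.subset_closure hψ))
    have e2 : IsChr ψ' := isChr_iff.mpr (Pool.Agent.K4H74.SC.isChar_of_mem hψ')
    rcases h3 ψ ψ' e1 e2 he with h | h
    · exfalso
      have h4 := pr_self hψ
      rw [h, pr_zero_left] at h4
      exact zero_ne_one h4
    · rw [he, h, add_zero]
      exact hψ

end irr

/-- For every `m ∈ P` the permutation `g` has exactly one cycle of length `m`, and it has no other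
cycles (the fixed points are cycles of length `1`). -/
def HasCycles {Y : Type} (g : Perm Y) (P : Finset ℕ) : Prop :=
  (∀ m, (∃ x, minimalPeriod g x = m) ↔ m ∈ P) ∧
    ∀ x y, minimalPeriod g x = minimalPeriod g y → g.SameCycle x y

/-- `χ` has rational values. -/
def RatVal {G : Type} (χ : G → ℂ) : Prop := ∀ x, ∃ q : ℚ, χ x = q

/-- The linear character `lam` of the subgroup `H` of `A`, as a character of the Galois group of
`L / F`, where `A` is identified with the Galois group of `L / K`, and `F` is the fixed field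
of `H`. -/
noncomputable def chrOver {A : Type} [Group A] (E : Ext) (e : A ≃* G E) (H : Subgroup A)
    (lam : H →* ℂˣ) : G (sub E (H.map (e : A →* G E))) → ℂ :=
  lin (subChr E (H.map (e : A →* G E)) (mapChr e H lam))

lemma isChr_chrOver {A : Type} [Group A] (E : Ext) (e : A ≃* G E) (H : Subgroup A) (lam : H →* ℂˣ) :
    IsChr (chrOver E e H lam) := isChr_lin _

lemma res_mem {K L : Type} [Field K] [NumberField K] [Field L] [NumberField L] [Algebra K L]
    [IsGalois K L] (H : Subgroup (L ≃ₐ[K] L)) (h : L ≃ₐ[IntermediateField.fixedField H] L) :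
    resK H h = ((IntermediateField.subgroupEquivAlgEquiv H).symm h : L ≃ₐ[K] L) := by
  obtain ⟨k, rfl⟩ := (IntermediateField.subgroupEquivAlgEquiv H).surjective h
  rw [MulEquiv.symm_apply_apply]
  ext x
  rfl

/-- the character in terms of the extension by zero -/
lemma chrOver_eq {A : Type} [Group A] (E : Ext) (e : A ≃* G E) (H : Subgroup A) (lam : H →* ℂˣ) :
    (fun h => Pool.Agent.R389.ext H (fun x => ((lam x : ℂˣ) : ℂ)) (e.symm (res h))) =
      chrOver E e H lam := by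
  funext h
  let k : H.map (e : A →* G E) := (IntermediateField.subgroupEquivAlgEquiv
    (show Subgroup (E.L ≃ₐ[E.K] E.L) from H.map (e : A →* G E))).symm h
  have h1 : res h = (k : G E) := res_mem (K := E.K) (L := E.L) (H.map (e : A →* G E)) h
  have h2 : e.symm (k : G E) ∈ H := ((e.subgroupMap H).symm k).2
  have h3 : (e.subgroupMap H).symm k = ⟨e.symm (k : G E), h2⟩ := rfl
  rw [h1, ext_mem _ _ h2]
  change _ = ((lam ((e.subgroupMap H).symm k) : ℂˣ) : ℂ)
  rw [h3]

lemma val_fix {M : Type} [CommGroup M] (B : ArtinInvariant M) {K L : Type} [Field K]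
    [NumberField K] [Field L] [NumberField L] [Algebra K L] [IsGalois K L]
    (U : Subgroup (L ≃ₐ[K] L)) (lam : U →* ℂˣ) (lam' : (L ≃ₐ[IntermediateField.fixedField U] L) →* ℂˣ)
    (h : ∀ g, lam' g = lam ((IntermediateField.subgroupEquivAlgEquiv U).symm g)) :
    B.val (IntermediateField.fixedField U) L (fun g => ((lam' g : ℂˣ) : ℂ)) =
      B.val K L (ind U (fun h => ((lam h : ℂˣ) : ℂ))) := by
  have hfin : FiniteDimensional K L := Module.Finite.of_restrictScalars_finite ℚ K L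
  have h1 := Pool.Agent.K4H74.ST.ind_fixed (K := K) (L := L) U (fun h => ((lam h : ℂˣ) : ℂ))
  have h2 : (fun g => ((lam ((IntermediateField.subgroupEquivAlgEquiv U).symm g) : ℂˣ) : ℂ)) =
      fun g => ((lam' g : ℂˣ) : ℂ) := funext fun g => by rw [h g]
  rw [h1, h2]
  exact (B.val_ind K (IntermediateField.fixedField U) L _ (IsChar.lc lam')).symm

lemma val_sub {M : Type} [CommGroup M] (B : ArtinInvariant M) (E : Ext)
    (U : Subgroup (E.L ≃ₐ[E.K] E.L)) (lam : U →* ℂˣ) :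
    B.val (sub E U).K (sub E U).L (lin (subChr E U lam)) =
      B.val E.K E.L (ind U (fun h => ((lam h : ℂˣ) : ℂ))) :=
  val_fix B U lam (subChr E U lam) fun _ => rfl

/-- the value at the induced character -/
lemma val_chrOver {M : Type} [CommGroup M] (B : ArtinInvariant M) {A : Type} [Group A] (E : Ext)
    (e : A ≃* G E) (H : Subgroup A) (lam : H →* ℂˣ) :
    B.val (sub E (H.map (e : A →* G E))).K (sub E (H.map (e : A →* G E))).L (chrOver E e H lam) =
      B.val E.K E.L (ind (G := G E) (H.map (e : A →* G E))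
        (fun h => ((mapChr e H lam h : ℂˣ) : ℂ))) :=
  val_sub B E (H.map (e : A →* G E)) (mapChr e H lam)

/-- the values of the characters at the two classes -/
lemma pr_kap_E {Y : Type} [Fintype Y] [DecidableEq Y] {G : Type} [Group G] [Finite G]
    (e : alternatingGroup Y ≃* G) {τ : Perm Y} (hτ : Perm.sign τ = -1) {P : Finset ℕ}
    (C : Cmp Y P) {γ γ' : alternatingGroup Y} (hγ : (γ : Perm Y) = C.g)
    (hγ' : (γ' : Perm Y) = τ * C.g * τ⁻¹) {χ : G → ℂ} (hχ : ∀ g x : G, χ (x * g * x⁻¹) = χ g) :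
    pr χ (((A0 Y).tr e).kap C.g) = χ (e γ) - χ (e γ') := by
  refine ((A0 Y).tr e).pr_kap C.split hτ (γ := e γ) (γ' := e γ') ?_ ?_ hχ
  · change ((e.symm (e γ) : alternatingGroup Y) : Perm Y) = _
    rw [MulEquiv.symm_apply_apply, hγ]
  · change ((e.symm (e γ') : alternatingGroup Y) : Perm Y) = _
    rw [MulEquiv.symm_apply_apply, hγ']

section unc

variable {M : Type} [CommGroup M] (B : ArtinInvariant M)
variable {K L : Type} [Field K] [NumberField K] [Field L] [NumberField L] [Algebra K L]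
  [IsGalois K L]

/-- the unconditional form -/
theorem main_unc {Y : Type} [Fintype Y] [DecidableEq Y] (A : AI (L ≃ₐ[K] L) Y) {τ : Perm Y}
    (hτ : Perm.sign τ = -1) (C : ∀ P : parts (Fintype.card Y), Cmp Y P) (I : ∀ P, Img A (C P))
    {χ : (L ≃ₐ[K] L) → ℂ} (hχ : IsChar χ) :
    ∃ (r : parts (Fintype.card Y) → ℤ) (ψ ψ' : (L ≃ₐ[K] L) → ℂ), IsChar ψ ∧ IsChar ψ' ∧
      RatVal ψ ∧ RatVal ψ' ∧ (∀ P, pr χ (A.kap (C P).g) = r P * (I P).D) ∧
      χ + ψ = ψ' + ∑ P, r P • ind (I P).H (fun h => (((I P).lam h : ℂˣ) : ℂ)) ∧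
      ∀ (M : Type) [CommGroup M] (B : ArtinInvariant M), B.val K L χ * B.val K L ψ = B.val K L ψ' *
        ∏ P, B.val K L (ind (I P).H (fun h => (((I P).lam h : ℂˣ) : ℂ))) ^ r P := by
  obtain ⟨r, hr, hv, hq⟩ := main_grp A hτ C I hχ.virt
  obtain ⟨χ₁, h₁, χ₂, h₂, he⟩ := virt_sub hv
  obtain ⟨m, hm⟩ := exists_compl h₂
  have hc₁ : IsChar χ₁ := Pool.Agent.K4H74.SC.isChar_of_mem h₁
  have hx : IsChar (χ₁ + (m • regf (L ≃ₐ[K] L) - χ₂)) := hc₁.add hm
  have hreg : IsChar (m • regf (L ≃ₐ[K] L)) := isChar_nsmul isChar_regf m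
  have hxr : RatVal (χ₁ + (m • regf (L ≃ₐ[K] L) - χ₂)) := by
    intro g
    obtain ⟨q, h⟩ := hq g
    obtain ⟨q', h'⟩ := regf_rat m g
    refine ⟨q + q', ?_⟩
    rw [he] at h
    rw [Pi.add_apply, Pi.sub_apply, h']
    rw [Pi.sub_apply] at h
    push_cast
    rw [← h]
    ring
  have hsum : χ + m • regf (L ≃ₐ[K] L) = (χ₁ + (m • regf (L ≃ₐ[K] L) - χ₂)) +
      ∑ P, r P • ind (I P).H (fun h => (((I P).lam h : ℂˣ) : ℂ)) := by
    have h3 : χ = (χ₁ - χ₂) + ∑ P, r P • ind (I P).H (fun h => (((I P).lam h : ℂˣ) : ℂ)) := by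
      rw [← he, sub_add_cancel]
    rw [h3]
    abel
  refine ⟨r, m • regf (L ≃ₐ[K] L), χ₁ + (m • regf (L ≃ₐ[K] L) - χ₂), hreg, hx,
    fun g => regf_rat m g, hxr, hr, hsum, ?_⟩
  intro M _ B
  have h1 : ∀ P, IsChar (ind (I P).H (fun h => (((I P).lam h : ℂˣ) : ℂ))) := fun P =>
    Pool.Agent.K4H74.SC.isChar_ind _ (IsChar.lc _)
  have h2 := val_sum B Finset.univ (f := fun P => r P • ind (I P).H
    (fun h => (((I P).lam h : ℂˣ) : ℂ))) (fun P _ => val_zsmul B (Val.of_char B (h1 P)) (r P))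
  have h3 := Val.add B (Val.of_char B hx) h2
  rw [← hsum] at h3
  have h4 := Val.of_char B (hχ.add hreg)
  rw [← B.val_add K L _ _ hχ hreg]
  exact h4.unique B h3

end unc

/-- **The theorem.** -/
theorem main (Y : Type) [Fintype Y] [DecidableEq Y] (hY : 2 ≤ Fintype.card Y) (n : ℕ)
    (hn : Fintype.card Y = n) :
    ∃ (H : parts n → Subgroup (alternatingGroup Y)) (lam : ∀ P, H P →* ℂˣ)
      (g g' : parts n → alternatingGroup Y) (D : parts n → ℂ),
      (∀ P, Odd (Nat.card (H P)) ∧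
        (∀ k : ℕ, (∀ q : ℕ, q.Prime → q ∣ ∏ m ∈ P.1, m → q ∣ k) → ∀ h, lam P h ^ k = 1) ∧
        HasCycles (g P : Perm Y) P.1 ∧
        (∃ t : Perm Y, Perm.sign t = -1 ∧ (g' P : Perm Y) = t * g P * t⁻¹) ∧
        D P ^ 2 = ((ZMod.χ₄ ((∏ m ∈ P.1, m : ℕ) : ZMod 4) : ℤ) : ℂ) * ((∏ m ∈ P.1, m : ℕ) : ℂ)) ∧
      ∀ (E : Ext) (e : alternatingGroup Y ≃* G E) (χ : G E → ℂ), IsChr χ →
        ∃ (r : parts n → ℤ) (ψ ψ' : G E → ℂ), IsChr ψ ∧ IsChr ψ' ∧ RatVal ψ ∧ RatVal ψ' ∧
          (∀ P, χ (e (g P)) - χ (e (g' P)) = r P * D P) ∧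
          ((∀ P, r P = 0) → RatVal χ) ∧
          (IsIrrChr χ → ∑ P, r P ^ 2 ≤ 1) ∧
          ∀ (M : Type) [CommGroup M] (B : ArtinInvariant M),
            B.val E.K E.L χ * B.val E.K E.L ψ = B.val E.K E.L ψ' *
              ∏ P, B.val (sub E ((H P).map (e : alternatingGroup Y →* G E))).K
                (sub E ((H P).map (e : alternatingGroup Y →* G E))).L
                (chrOver E e (H P) (lam P)) ^ r P := by
  classical
  subst hn
  obtain ⟨a, b, hab⟩ := Fintype.exists_pair_of_one_lt_card (α := Y) (by omega)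
  have hτ : Perm.sign (swap a b) = -1 := Perm.sign_swap hab
  have hC : ∀ P : parts (Fintype.card Y), Nonempty (Cmp Y P) := fun P =>
    exists_cmp' P.1 (mem_parts.mp P.2).1 (mem_parts.mp P.2).2.1
  let C : ∀ P : parts (Fintype.card Y), Cmp Y P := fun P => (hC P).some
  let I : ∀ P, Img (A0 Y) (C P) := fun P => (exists_img (A0 Y) (C P)).some
  have hg : ∀ P, ∃ γ : alternatingGroup Y, (γ : Perm Y) = (C P).g := by
    intro P
    obtain ⟨γ, hγ⟩ := (A0 Y).el (C P).split 1
    exact ⟨γ, by change (A0 Y).ι γ = _; rw [hγ]; group⟩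
  choose γ hγ using hg
  have hg' : ∀ P, ∃ γ' : alternatingGroup Y, (γ' : Perm Y) = swap a b * (C P).g * (swap a b)⁻¹ :=
    fun P => (A0 Y).el (C P).split (swap a b)
  choose γ' hγ' using hg'
  refine ⟨fun P => (I P).H, fun P => (I P).lam, γ, γ', fun P => (I P).D, ?_, ?_⟩
  · intro P
    refine ⟨?_, ?_, ?_, ⟨swap a b, hτ, ?_⟩, (I P).D_sq⟩
    · rw [(I P).card]
      exact (C P).odd
    · intro k hk h
      exact (C P).ord k hk _
    · rw [hγ]
      exact ⟨(C P).per, (C P).dc⟩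
    · rw [hγ', hγ]
  · intro E e χ hχ
    have hfin : Finite (G E) := inferInstanceAs (Finite (E.L ≃ₐ[E.K] E.L))
    let e' : alternatingGroup Y ≃* (E.L ≃ₐ[E.K] E.L) := e
    obtain ⟨r, ψ, ψ', h1, h2, h3, h4, h5, h6, h7⟩ := main_unc (K := E.K) (L := E.L)
      ((A0 Y).tr e') hτ C (fun P => (I P).tr e') (isChr_iff.mp hχ)
    have hD : ∀ P, ((I P).tr e').D = (I P).D := fun P => (I P).tr_D e'
    have hcl : ∀ g x : E.L ≃ₐ[E.K] E.L, χ (x * g * x⁻¹) = χ g :=
      (isChr_iff.mp hχ).virt.conj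
    refine ⟨r, ψ, ψ', isChr_iff.mpr h1, isChr_iff.mpr h2, h3, h4, ?_, ?_, ?_, ?_⟩
    · intro P
      have h8 := h5 P
      rw [hD] at h8
      rw [← h8]
      exact (pr_kap_E e' hτ (C P) (hγ P) (hγ' P) hcl).symm
    · intro h0
      have h8 : ∑ P, r P • ind ((I P).tr e').H (fun h => ((((I P).tr e').lam h : ℂˣ) : ℂ)) = 0 :=
        Finset.sum_eq_zero fun P _ => by rw [h0 P, zero_smul]
      rw [h8, add_zero] at h6
      intro x
      obtain ⟨q, hq⟩ := h3 x
      obtain ⟨q', hq'⟩ := h4 x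
      refine ⟨q' - q, ?_⟩
      have h9 : χ x + ψ x = ψ' x := congrFun h6 x
      rw [hq, hq'] at h9
      push_cast
      rw [← h9]
      ring
    · intro hirr
      exact sum_r_sq ((A0 Y).tr e') hτ C (fun P => (I P).tr e') (mem_irr hirr) r h5
    · intro M _ B
      have h8 := h7 M B
      have h9 : ∀ P, B.val E.K E.L (ind ((I P).tr e').H (fun h => ((((I P).tr e').lam h : ℂˣ) : ℂ)))
          = B.val (sub E ((I P).H.map (e : alternatingGroup Y →* G E))).K
            (sub E ((I P).H.map (e : alternatingGroup Y →* G E))).L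
            (chrOver E e (I P).H (I P).lam) := by
        intro P
        rw [val_chrOver B E e (I P).H (I P).lam, (I P).tr_ind e']
        rfl
      rw [h8]
      congr 1
      exact Finset.prod_congr rfl fun P _ => by rw [h9 P]

end Run7.h200.SP
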