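import Mathlib

/-!
# Permutations whose cycles have different lengths
-/

set_option autoImplicit false
set_option linter.unusedSectionVars false

open Equiv Function

namespace Run7.h200.SP

variable {X : Type} [Fintype X] [DecidableEq X]

/-- the permutation has one cycle -/
def Trans (σ : Perm X) : Prop := ∀ x y, σ.SameCycle x y

/-- different cycles have different lengths -/
def DC (σ : Perm X) : Prop := ∀ x y, minimalPeriod σ x = minimalPeriod σ y → σ.SameCycle x y

/-- the centralizer consists of even permutations -/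
def Split (g : Perm X) : Prop := ∀ t : Perm X, t * g = g * t → Perm.sign t = 1

lemma Trans.dc {σ : Perm X} (h : Trans σ) : DC σ := fun x y _ => h x y

lemma coe_iter (σ : Perm X) (k : ℕ) : (σ : X → X)^[k] = (σ ^ k : Perm X) :=
  (Equiv.Perm.iterate_eq_pow σ k)

lemma per_pos (σ : Perm X) (x : X) : 0 < minimalPeriod σ x := by
  refine IsPeriodicPt.minimalPeriod_pos (n := orderOf σ) (orderOf_pos σ) ?_
  change (σ : X → X)^[orderOf σ] x = x
  rw [coe_iter, pow_orderOf_eq_one]
  rfl

lemma pow_eq_iff (σ : Perm X) (x : X) (k : ℕ) : (σ ^ k) x = x ↔ minimalPeriod σ x ∣ k := by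
  rw [← isPeriodicPt_iff_minimalPeriod_dvd]
  change _ ↔ (σ : X → X)^[k] x = x
  rw [coe_iter]

lemma pow_per (σ : Perm X) (x : X) : (σ ^ minimalPeriod σ x) x = x :=
  (pow_eq_iff σ x _).mpr dvd_rfl

/-- an equality of points of an orbit -/
lemma pow_eq_pow_iff (σ : Perm X) (x : X) (i j : ℕ) :
    (σ ^ i) x = (σ ^ j) x ↔ (i : ℤ) ≡ j [ZMOD (minimalPeriod σ x : ℤ)] := by
  wlog h : i ≤ j generalizing i j
  · rw [eq_comm, this j i (by omega)]
    exact ⟨Int.ModEq.symm, Int.ModEq.symm⟩
  obtain ⟨k, rfl⟩ := Nat.exists_eq_add_of_le h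
  rw [pow_add, Perm.mul_apply, (σ ^ i).injective.eq_iff, eq_comm, pow_eq_iff]
  rw [Int.modEq_iff_dvd]
  push_cast
  rw [add_sub_cancel_left]
  exact Int.natCast_dvd_natCast.symm

lemma same_nat {σ : Perm X} {x y : X} (h : σ.SameCycle x y) : ∃ k : ℕ, (σ ^ k) x = y := by
  obtain ⟨k, -, h⟩ := h.exists_pow_eq'
  exact ⟨k, h⟩

lemma same_of_nat {σ : Perm X} {x y : X} {k : ℕ} (h : (σ ^ k) x = y) : σ.SameCycle x y :=
  ⟨k, by rw [zpow_natCast]; exact h⟩

/-- the period is an invariant of the cycle -/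
lemma per_of_comm {σ t : Perm X} (h : t * σ = σ * t) (x : X) :
    minimalPeriod σ (t x) = minimalPeriod σ x := by
  rw [minimalPeriod_eq_minimalPeriod_iff]
  intro n
  change (σ : X → X)^[n] (t x) = t x ↔ (σ : X → X)^[n] x = x
  rw [coe_iter, ← Perm.mul_apply, ((show Commute t σ from h).pow_right n).symm.eq, Perm.mul_apply,
    t.injective.eq_iff]

lemma per_same {σ : Perm X} {x y : X} (h : σ.SameCycle x y) :
    minimalPeriod σ y = minimalPeriod σ x := by
  obtain ⟨k, rfl⟩ := same_nat h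
  exact per_of_comm (t := σ ^ k) ((Commute.refl σ).pow_left k) x

lemma per_conj (σ t : Perm X) (x : X) :
    minimalPeriod (t * σ * t⁻¹ : Perm X) x = minimalPeriod σ (t⁻¹ x) := by
  rw [minimalPeriod_eq_minimalPeriod_iff]
  intro n
  change ((t * σ * t⁻¹ : Perm X) : X → X)^[n] x = x ↔ (σ : X → X)^[n] (t⁻¹ x) = t⁻¹ x
  rw [coe_iter, coe_iter, conj_pow, Perm.mul_apply, Perm.mul_apply]
  constructor
  · intro h
    rw [Perm.eq_inv_iff_eq]
    exact h
  · intro h
    rw [h]
    exact t.apply_symm_apply x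

lemma DC.conj {σ : Perm X} (h : DC σ) (t : Perm X) : DC (t * σ * t⁻¹) := by
  intro x y hxy
  rw [per_conj, per_conj] at hxy
  exact Equiv.Perm.sameCycle_conj.mpr (h _ _ hxy)

lemma Trans.conj {σ : Perm X} (h : Trans σ) (t : Perm X) : Trans (t * σ * t⁻¹) := by
  intro x y
  exact Equiv.Perm.sameCycle_conj.mpr (h _ _)

lemma trans_of_conj {σ t : Perm X} (h : Trans (t * σ * t⁻¹)) : Trans σ := by
  have h1 := h.conj t⁻¹
  have h2 : t⁻¹ * (t * σ * t⁻¹) * t⁻¹⁻¹ = σ := by group
  rwa [h2] at h1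

lemma per_trans {σ : Perm X} (h : Trans σ) (x : X) : minimalPeriod σ x = Fintype.card X := by
  have h1 : Function.Bijective (fun i : Fin (minimalPeriod σ x) => (σ ^ (i : ℕ)) x) := by
    constructor
    · intro i j hij
      have h2 := (pow_eq_pow_iff σ x i j).mp hij
      have h3 : (i : ℕ) ≡ j [MOD (minimalPeriod σ x)] := (Int.natCast_modEq_iff).mp h2
      exact Fin.ext (Nat.ModEq.eq_of_lt_of_lt h3 i.2 j.2)
    · intro y
      obtain ⟨k, rfl⟩ := same_nat (h x y)
      refine ⟨⟨k % minimalPeriod σ x, Nat.mod_lt _ (per_pos σ x)⟩, ?_⟩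
      exact (pow_eq_pow_iff σ x _ _).mpr (by exact_mod_cast Nat.mod_modEq k _)
  have h2 := Fintype.card_of_bijective h1
  rwa [Fintype.card_fin] at h2

lemma trans_of_per {σ : Perm X} {x : X} (h : minimalPeriod σ x = Fintype.card X) : Trans σ := by
  have h1 : Function.Bijective (fun i : Fin (minimalPeriod σ x) => (σ ^ (i : ℕ)) x) := by
    rw [Fintype.bijective_iff_injective_and_card]
    refine ⟨fun i j hij => ?_, by rw [Fintype.card_fin, h]⟩
    have h2 := (pow_eq_pow_iff σ x i j).mp hij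
    have h3 : (i : ℕ) ≡ j [MOD (minimalPeriod σ x)] := (Int.natCast_modEq_iff).mp h2
    exact Fin.ext (Nat.ModEq.eq_of_lt_of_lt h3 i.2 j.2)
  have h2 : ∀ y, σ.SameCycle x y := by
    intro y
    obtain ⟨i, hi⟩ := h1.2 y
    exact same_of_nat hi
  exact fun y z => (h2 y).symm.trans (h2 z)

/-- commuting with a transitive permutation -/
lemma comm_trans {g t : Perm X} (hg : Trans g) (h : t * g = g * t) : ∃ k : ℤ, t = g ^ k := by
  rcases isEmpty_or_nonempty X with hX | ⟨⟨x⟩⟩
  · exact ⟨0, Subsingleton.elim _ _⟩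
  obtain ⟨k, hk⟩ := hg x (t x)
  refine ⟨k, ?_⟩
  ext y
  obtain ⟨j, rfl⟩ := hg x y
  have h1 : Commute t (g ^ j) := (show Commute t g from h).zpow_right j
  rw [← Perm.mul_apply, h1.eq, Perm.mul_apply, ← hk, ← Perm.mul_apply, ← Perm.mul_apply,
    ← zpow_add, ← zpow_add, add_comm]

lemma odd_unit {s : ℤˣ} {k : ℕ} (hk : Odd k) (h : s ^ k = 1) : s = 1 := by
  rcases Int.units_eq_one_or s with h1 | h1
  · exact h1
  · rw [h1, hk.neg_one_pow] at h
    exact absurd h (by decide)

lemma pow_card_trans {g : Perm X} (hg : Trans g) : g ^ Fintype.card X = 1 := by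
  ext x
  rw [(pow_eq_iff g x _).mpr (by rw [per_trans hg])]
  rfl

lemma orderOf_trans {g : Perm X} (hg : Trans g) (hX : 0 < Fintype.card X) :
    orderOf g = Fintype.card X := by
  refine Nat.dvd_antisymm (orderOf_dvd_of_pow_eq_one (pow_card_trans hg)) ?_
  obtain ⟨x⟩ := Fintype.card_pos_iff.mp hX
  rw [← per_trans hg x, ← pow_eq_iff, pow_orderOf_eq_one]
  rfl

lemma sign_trans {g : Perm X} (hg : Trans g) (hX : Odd (Fintype.card X)) : Perm.sign g = 1 := by
  refine odd_unit hX ?_
  rw [← map_pow, pow_card_trans hg, map_one]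

lemma split_trans {g : Perm X} (hg : Trans g) (hX : Odd (Fintype.card X)) : Split g := by
  intro t ht
  obtain ⟨k, rfl⟩ := comm_trans hg ht
  rw [map_zpow, sign_trans hg hX, one_zpow]

/-- **Conjugacy** of permutations whose cycles have different lengths. -/
lemma conj_of_dc {g h : Perm X} (hg : DC g) (hh : DC h)
    (hp : ∀ m, (∃ x, minimalPeriod g x = m) ↔ ∃ x, minimalPeriod h x = m) :
    ∃ t : Perm X, t * g * t⁻¹ = h := by
  classical
  have h1 : ∀ x : X, ∃ b a : X, minimalPeriod g b = minimalPeriod g x ∧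
      minimalPeriod h a = minimalPeriod g x := by
    intro x
    obtain ⟨a, ha⟩ := (hp _).mp ⟨x, rfl⟩
    exact ⟨x, a, rfl, ha⟩
  -- base points which depend only on the period
  let bp : ℕ → X → X := fun m x => if hm : ∃ b, minimalPeriod g b = m then hm.choose else x
  let ap : ℕ → X → X := fun m x => if hm : ∃ b, minimalPeriod h b = m then hm.choose else x
  have hb : ∀ x, minimalPeriod g (bp (minimalPeriod g x) x) = minimalPeriod g x := by
    intro x
    have hm : ∃ b, minimalPeriod g b = minimalPeriod g x := ⟨x, rfl⟩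
    change minimalPeriod g (dite _ _ _) = _
    rw [dif_pos hm]
    exact hm.choose_spec
  have ha : ∀ x, minimalPeriod h (ap (minimalPeriod g x) x) = minimalPeriod g x := by
    intro x
    have hm : ∃ b, minimalPeriod h b = minimalPeriod g x := (hp _).mp ⟨x, rfl⟩
    change minimalPeriod h (dite _ _ _) = _
    rw [dif_pos hm]
    exact hm.choose_spec
  have hbx : ∀ x y, minimalPeriod g x = minimalPeriod g y →
      bp (minimalPeriod g x) x = bp (minimalPeriod g y) y := by
    intro x y hxy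
    have hm : ∃ b, minimalPeriod g b = minimalPeriod g x := ⟨x, rfl⟩
    change dite _ _ _ = dite _ _ _
    rw [hxy, dif_pos ⟨y, rfl⟩, dif_pos ⟨y, rfl⟩]
  have hax : ∀ x y, minimalPeriod g x = minimalPeriod g y →
      ap (minimalPeriod g x) x = ap (minimalPeriod g y) y := by
    intro x y hxy
    have hm : ∃ b, minimalPeriod h b = minimalPeriod g y := (hp _).mp ⟨y, rfl⟩
    change dite _ _ _ = dite _ _ _
    rw [hxy, dif_pos hm, dif_pos hm]
  have h2 : ∀ x : X, ∃ i : ℕ, (g ^ i) (bp (minimalPeriod g x) x) = x := fun x =>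
    same_nat (hg _ _ (hb x))
  choose i hi using h2
  let f : X → X := fun x => (h ^ i x) (ap (minimalPeriod g x) x)
  have hfp : ∀ x, minimalPeriod h (f x) = minimalPeriod g x := by
    intro x
    rw [← ha x]
    exact per_same (same_of_nat rfl)
  have hinj : Function.Injective f := by
    intro x y hxy
    have e1 : minimalPeriod g x = minimalPeriod g y := by rw [← hfp x, ← hfp y, hxy]
    have e2 : (h ^ i x) (ap (minimalPeriod g x) x) = (h ^ i y) (ap (minimalPeriod g x) x) := by
      have := hxy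
      change (h ^ i x) (ap (minimalPeriod g x) x) = (h ^ i y) (ap (minimalPeriod g y) y) at this
      rwa [← hax x y e1] at this
    rw [pow_eq_pow_iff, ha x, ← hb x, ← pow_eq_pow_iff, hi x] at e2
    rw [e2, hbx x y e1]
    exact hi y
  have hcomm : ∀ x, f (g x) = h (f x) := by
    intro x
    have e1 : minimalPeriod g (g x) = minimalPeriod g x := per_of_comm rfl x
    change (h ^ i (g x)) (ap (minimalPeriod g (g x)) (g x)) = h ((h ^ i x) (ap (minimalPeriod g x) x))
    rw [hax _ _ e1, ← Perm.mul_apply, ← pow_succ', pow_eq_pow_iff, ha x, ← hb x, ← pow_eq_pow_iff,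
      ← hbx _ _ e1, hi (g x), hbx _ _ e1, pow_succ', Perm.mul_apply, hi x]
  let t : Perm X := Equiv.ofBijective f (Finite.injective_iff_bijective.mp hinj)
  refine ⟨t, ?_⟩
  ext y
  obtain ⟨x, rfl⟩ := t.surjective y
  change t (g (t.symm (t x))) = h (t x)
  rw [Equiv.symm_apply_apply]
  exact hcomm x

lemma conj_trans {g h : Perm X} (hg : Trans g) (hh : Trans h) : ∃ t : Perm X, t * g * t⁻¹ = h := by
  refine conj_of_dc hg.dc hh.dc fun m => ?_
  constructor
  · rintro ⟨x, rfl⟩
    exact ⟨x, by rw [per_trans hh, per_trans hg]⟩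
  · rintro ⟨x, rfl⟩
    exact ⟨x, by rw [per_trans hh, per_trans hg]⟩

open Classical in
/-- the relative sign: `sign t` if `h = t g t⁻¹`, and `0` if `g` and `h` are not conjugate -/
noncomputable def eps (g h : Perm X) : ℂ :=
  if hh : ∃ t : Perm X, t * g * t⁻¹ = h then ((Perm.sign hh.choose : ℤ) : ℂ) else 0

lemma eps_conj {g : Perm X} (hg : Split g) (t : Perm X) :
    eps g (t * g * t⁻¹) = ((Perm.sign t : ℤ) : ℂ) := by
  have hh : ∃ s : Perm X, s * g * s⁻¹ = t * g * t⁻¹ := ⟨t, rfl⟩
  rw [eps, dif_pos hh]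
  have h1 := hh.choose_spec
  set s := hh.choose
  have h2 : (t⁻¹ * s) * g = g * (t⁻¹ * s) := by
    have : s * g = t * g * t⁻¹ * s := by rw [← h1]; group
    rw [mul_assoc, this]
    group
  have h3 := hg _ h2
  rw [map_mul, map_inv, inv_mul_eq_one] at h3
  rw [h3]

lemma eps_zero {g h : Perm X} (hh : ¬ ∃ t : Perm X, t * g * t⁻¹ = h) : eps g h = 0 := dif_neg hh

end Run7.h200.SP
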