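import Pool.Agent.Run7.h200.SP.Sys

/-!
# The characters of the intermediate extensions
-/

set_option autoImplicit false
set_option linter.unusedSectionVars false

namespace Run7.h200.SP

open Equiv Function NumberField Pool.Agent.K4H74 Pool.Agent.K4H74.SK Pool.Agent.R389
open Pool.Agent.K4H74.ST (IsChar ArtinInvariant)

lemma HasCycles.conj {Y : Type} [Fintype Y] [DecidableEq Y] {g : Perm Y} {P : Finset ℕ}
    (h : HasCycles g P) (t : Perm Y) : HasCycles (t * g * t⁻¹) P :=
  ⟨fun m => (exists_per_conj g t m).trans (h.1 m), DC.conj h.2 t⟩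

/-- a permutation with two fixed points has two cycles of length one -/
lemma not_hasCycles {Y : Type} [Fintype Y] [DecidableEq Y] {g : Perm Y} {a b : Y} (hab : a ≠ b)
    (ha : g a = a) (hb : g b = b) (P : Finset ℕ) : ¬ HasCycles g P := by
  intro h
  have h1 : minimalPeriod g a = 1 := minimalPeriod_eq_one_iff_isFixedPt.mpr ha
  have h2 : minimalPeriod g b = 1 := minimalPeriod_eq_one_iff_isFixedPt.mpr hb
  obtain ⟨k, hk⟩ := h.2 a b (h1.trans h2.symm)
  exact hab ((Perm.zpow_apply_eq_self_of_apply_eq_self ha k).symm.trans hk)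

section ind

variable {G : Type} [Group G]

lemma ind_zero (H : Subgroup G) (f : H → ℂ) {g : G} (h : ∀ x : G, x⁻¹ * g * x ∉ H) :
    ind H f g = 0 := by
  rw [ind]
  have h1 : ∀ x : G, ext H f (x⁻¹ * g * x) = 0 := fun x => ext_not H f (h x)
  simp only [h1, finsum_zero, mul_zero]

end ind

/-- the induced function of a function on the Galois group of `L / F` -/
noncomputable def indSub (E : Ext) (U : Subgroup (G E)) (χ : G (sub E U) → ℂ) : G E → ℂ :=
  ind (G := G E) U (fun h => χ (IntermediateField.subgroupEquivAlgEquiv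
    (show Subgroup (E.L ≃ₐ[E.K] E.L) from U) h))

lemma val_ind_fix {M : Type} [CommGroup M] (B : ArtinInvariant M) {K L : Type} [Field K]
    [NumberField K] [Field L] [NumberField L] [Algebra K L] [IsGalois K L]
    (U : Subgroup (L ≃ₐ[K] L)) (χ : (L ≃ₐ[IntermediateField.fixedField U] L) → ℂ)
    (hχ : IsChar χ) :
    B.val (IntermediateField.fixedField U) L χ =
      B.val K L (ind U (fun h => χ (IntermediateField.subgroupEquivAlgEquiv U h))) := by
  have hfin : FiniteDimensional K L := Module.Finite.of_restrictScalars_finite ℚ K L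
  have h1 := Pool.Agent.K4H74.ST.ind_fixed (K := K) (L := L) U
    (fun h => χ (IntermediateField.subgroupEquivAlgEquiv U h))
  have h2 : (fun g => χ (IntermediateField.subgroupEquivAlgEquiv U
      ((IntermediateField.subgroupEquivAlgEquiv U).symm g))) = χ :=
    funext fun g => by rw [MulEquiv.apply_symm_apply]
  rw [h1, h2]
  exact (B.val_ind K (IntermediateField.fixedField U) L _ hχ).symm

lemma val_indSub {M : Type} [CommGroup M] (B : ArtinInvariant M) (E : Ext) (U : Subgroup (G E))
    {χ : G (sub E U) → ℂ} (hχ : IsChr χ) :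
    B.val (sub E U).K (sub E U).L χ = B.val E.K E.L (indSub E U χ) :=
  val_ind_fix B (K := E.K) (L := E.L) U χ (isChr_iff.mp hχ)

lemma isChr_indSub (E : Ext) (U : Subgroup (G E)) {χ : G (sub E U) → ℂ} (hχ : IsChr χ) :
    IsChr (indSub E U χ) := by
  have hfin : Finite (G E) := inferInstanceAs (Finite (E.L ≃ₐ[E.K] E.L))
  refine isChr_iff.mpr (SC.isChar_ind _ ?_)
  exact ST.IsChar.comp (isChr_iff.mp hχ) (IntermediateField.subgroupEquivAlgEquiv
    (show Subgroup (E.L ≃ₐ[E.K] E.L) from U)).toMonoidHom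

/-- the values at the split classes -/
lemma indSub_zero {n : ℕ} {E : Ext} (e : alternatingGroup (Fin n) ≃* G E)
    (U : Subgroup (alternatingGroup (Fin n))) (χ : G (sub E (U.map (e : _ →* G E))) → ℂ)
    {P : Finset ℕ} (hU : ∀ u ∈ U, ¬ HasCycles (u : Perm (Fin n)) P)
    {γ : alternatingGroup (Fin n)} (hγ : HasCycles (γ : Perm (Fin n)) P) :
    indSub E (U.map (e : _ →* G E)) χ (e γ) = 0 := by
  refine ind_zero _ _ fun x hx => ?_
  obtain ⟨u, hu, hux⟩ := hx
  have h1 : u = (e.symm x)⁻¹ * γ * e.symm x := by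
    apply e.injective
    rw [map_mul, map_mul, map_inv, MulEquiv.apply_symm_apply]
    exact hux
  refine hU u hu ?_
  have h2 : (u : Perm (Fin n)) = ((e.symm x : alternatingGroup (Fin n)) : Perm (Fin n))⁻¹ * γ *
      (((e.symm x : alternatingGroup (Fin n)) : Perm (Fin n))⁻¹)⁻¹ := by
    rw [h1, inv_inv]
    rfl
  rw [h2]
  exact hγ.conj _

end Run7.h200.SP
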