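import Pool.Agent.K4H74.SC.Core

/-!
# Stark's conjecture for alternating groups: definitions
-/

set_option autoImplicit false

open NumberField Pool.Agent.K4H74.SK

namespace Run7.h200.SP

open Classical in
/-- The partitions of `n` into different odd parts (given by the set of the parts) for which the
product of the parts is not a square. -/
noncomputable def parts (n : ℕ) : Finset (Finset ℕ) :=
  (Finset.range (n + 1)).powerset.filter fun P =>
    (∀ m ∈ P, Odd m) ∧ ∑ m ∈ P, m = n ∧ ¬ IsSquare (∏ m ∈ P, m)

/-- The extension `L / F`, where `F` is the fixed field of the subgroup `H` of the Galois group of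
`L / K`. -/
noncomputable def sub (E : Ext) (H : Subgroup (G E)) : Ext where
  K := IntermediateField.fixedField (show Subgroup (E.L ≃ₐ[E.K] E.L) from H)
  L := E.L

/-- The linear character `lam` of `H` as a character of the Galois group of `L / F`. -/
noncomputable def subChr (E : Ext) (H : Subgroup (G E)) (lam : H →* ℂˣ) : G (sub E H) →* ℂˣ :=
  lam.comp (IntermediateField.subgroupEquivAlgEquiv
    (show Subgroup (E.L ≃ₐ[E.K] E.L) from H)).symm.toMonoidHom

/-- An automorphism of `L` over the fixed field of `H`, as an automorphism over `K`. -/
def resK {K L : Type} [Field K] [Field L] [Algebra K L] (H : Subgroup (L ≃ₐ[K] L))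
    (h : L ≃ₐ[IntermediateField.fixedField H] L) : L ≃ₐ[K] L := h.restrictScalars K

/-- An element of the Galois group of `L / F`, as an element of the Galois group of `L / K`. -/
def res {E : Ext} {H : Subgroup (G E)} (h : G (sub E H)) : G E :=
  resK (show Subgroup (E.L ≃ₐ[E.K] E.L) from H) h

/-- The linear character of the image of the subgroup `H` under the isomorphism `e` which
corresponds to the linear character `lam` of `H`. -/
noncomputable def mapChr {A B : Type} [Group A] [Group B] (e : A ≃* B) (H : Subgroup A)
    (lam : H →* ℂˣ) : (H.map (e : A →* B)) →* ℂˣ :=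
  lam.comp (e.subgroupMap H).symm.toMonoidHom

end Run7.h200.SP
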