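import Pool.Agent.Run7.h200.SP.Int
import Pool.Agent.Run7.h200.SP.Defs
import Pool.Agent.K4H74.ST.Chr
import Pool.Agent.K4H77.SL.Def

/-!
# Stark's conjecture for alternating groups
-/

set_option autoImplicit false
set_option linter.unusedSectionVars false

open Equiv Function Pool.Agent.R389 Pool.Agent.W446.AS Pool.Agent.H541R3.ART
open Pool.Agent.K4H74.ST (IsChar ArtinInvariant Val indChar)
open NumberField

namespace Run7.h200.SP

lemma mem_parts {n : ℕ} {P : Finset ℕ} : P ∈ parts n ↔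
    (∀ m ∈ P, Odd m) ∧ ∑ m ∈ P, m = n ∧ ¬ IsSquare (∏ m ∈ P, m) := by
  classical
  unfold parts
  rw [Finset.mem_filter, Finset.mem_powerset]
  constructor
  · exact fun h => h.2
  · intro h
    refine ⟨fun m hm => ?_, h⟩
    rw [Finset.mem_range, ← h.2.1]
    exact Nat.lt_succ_of_le (Finset.single_le_sum (f := fun m => m) (fun _ _ => Nat.zero_le _) hm)

section grp

variable {G : Type} [Group G] [Finite G]

lemma virt_sub {f : G → ℂ} (hf : Virt f) : ∃ χ₁ ∈ AddSubmonoid.closure (Irr G),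
    ∃ χ₂ ∈ AddSubmonoid.closure (Irr G), f = χ₁ - χ₂ := by
  induction hf using AddSubgroup.closure_induction with
  | mem χ hχ => exact ⟨χ, AddSubmonoid.subset_closure hχ, 0, zero_mem _, by rw [sub_zero]⟩
  | zero => exact ⟨0, zero_mem _, 0, zero_mem _, by rw [sub_zero]⟩
  | add a b _ _ ha hb =>
    obtain ⟨a₁, h1, a₂, h2, rfl⟩ := ha
    obtain ⟨b₁, h3, b₂, h4, rfl⟩ := hb
    exact ⟨a₁ + b₁, add_mem h1 h3, a₂ + b₂, add_mem h2 h4, by abel⟩
  | neg a _ ha =>
    obtain ⟨a₁, h1, a₂, h2, rfl⟩ := ha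
    exact ⟨a₂, h2, a₁, h1, by abel⟩

open Classical in
/-- the regular character -/
noncomputable def regf (G : Type) [Group G] : G → ℂ := fun g => if g = 1 then (Nat.card G : ℂ) else 0

lemma pr_regf (χ : G → ℂ) : pr (regf G) χ = χ 1 := by
  classical
  have : Fintype G := Fintype.ofFinite G
  rw [pr_eq, Finset.sum_eq_single 1]
  · rw [regf, if_pos rfl, inv_one, ← mul_assoc, inv_mul_cancel₀ card_ne, one_mul]
  · intro b _ hb
    rw [regf, if_neg hb, zero_mul]
  · intro h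
    exact absurd (Finset.mem_univ _) h

lemma regf_class (g x : G) : regf G (x * g * x⁻¹) = regf G g := by
  have h1 : x * g * x⁻¹ = 1 ↔ g = 1 := by
    rw [mul_inv_eq_one]
    exact mul_eq_left
  unfold regf
  by_cases h : g = 1
  · rw [if_pos h, if_pos (h1.mpr h)]
  · rw [if_neg h, if_neg (fun h' => h (h1.mp h'))]

lemma irr_one {χ : G → ℂ} (hχ : χ ∈ Irr G) : ∃ k : ℕ, χ 1 = k + 1 := by
  classical
  have : Fintype G := Fintype.ofFinite G
  have h0 := pr_self hχ
  obtain ⟨n, ρ, hρ, rfl⟩ := hχ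
  have h1 : ρ.character 1 = n := by
    unfold Representation.character
    rw [map_one, LinearMap.trace_one]
    simp
  rcases Nat.eq_zero_or_pos n with rfl | hn
  · exfalso
    have h2 : ρ.character = 0 := by
      funext g
      unfold Representation.character
      rw [Subsingleton.elim (ρ g) 0, map_zero]
      rfl
    rw [h2, pr_zero_left] at h0
    exact zero_ne_one h0
  · exact ⟨n - 1, by rw [h1]; push_cast [Nat.sub_add_cancel hn]; rw [Nat.cast_sub hn]; ring⟩

/-- characters are contained in multiples of the regular character -/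
lemma exists_compl {χ : G → ℂ} (hχ : χ ∈ AddSubmonoid.closure (Irr G)) :
    ∃ m : ℕ, IsChar (m • regf G - χ) := by
  induction hχ using AddSubmonoid.closure_induction with
  | mem χ hχ =>
    refine ⟨1, ?_⟩
    rw [one_smul]
    have h1 : ∀ ψ ∈ Irr G, ∃ k : ℕ, pr (regf G - χ) ψ = k := by
      intro ψ hψ
      rw [pr_sub, pr_regf]
      obtain ⟨k, hk⟩ := irr_one hψ
      by_cases h : χ = ψ
      · subst h
        exact ⟨k, by rw [hk, pr_self hχ]; ring⟩
      · exact ⟨k + 1, by rw [hk, pr_ne hχ hψ h]; push_cast; ring⟩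
    choose! m hm using h1
    refine IsChar.of_decomp (IsDecomp.of_pr (fun g x => ?_) hm)
    rw [Pi.sub_apply, Pi.sub_apply, regf_class, Irr.conj hχ]
  | zero => exact ⟨0, by rw [zero_smul, sub_zero]; exact IsChar.zero⟩
  | add a b _ _ ha hb =>
    obtain ⟨k, hk⟩ := ha
    obtain ⟨l, hl⟩ := hb
    refine ⟨k + l, ?_⟩
    have : (k + l) • regf G - (a + b) = (k • regf G - a) + (l • regf G - b) := by
      rw [add_smul]
      abel
    rw [this]
    exact hk.add hl

lemma isChar_regf : IsChar (regf G) := by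
  have h1 : ∀ ψ ∈ Irr G, ∃ k : ℕ, pr (regf G) ψ = k := by
    intro ψ hψ
    obtain ⟨k, hk⟩ := irr_one hψ
    exact ⟨k + 1, by rw [pr_regf, hk]; push_cast; rfl⟩
  choose! m hm using h1
  exact IsChar.of_decomp (IsDecomp.of_pr (fun g x => regf_class g x) hm)

lemma isChar_nsmul {χ : G → ℂ} (h : IsChar χ) (m : ℕ) : IsChar (m • χ) := by
  induction m with
  | zero => rw [zero_smul]; exact IsChar.zero
  | succ m ih => rw [succ_nsmul]; exact ih.add h

lemma regf_rat (m : ℕ) (g : G) : ∃ q : ℚ, (m • regf G) g = q := by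
  classical
  rw [Pi.smul_apply, regf]
  split_ifs
  · exact ⟨m * Nat.card G, by simp⟩
  · exact ⟨0, by simp⟩

variable {Y : Type} [Fintype Y] [DecidableEq Y]

lemma pr_sum_left {ι : Type} (s : Finset ι) (f : ι → G → ℂ) (χ : G → ℂ) :
    pr (∑ i ∈ s, f i) χ = ∑ i ∈ s, pr (f i) χ := by
  classical
  induction s using Finset.induction_on with
  | empty => rw [Finset.sum_empty, Finset.sum_empty, pr_zero_left]
  | insert a s ha ih => rw [Finset.sum_insert ha, Finset.sum_insert ha, pr_add, ih]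

lemma pr_zsmul (r : ℤ) (f χ : G → ℂ) : pr (r • f) χ = r * pr f χ := by
  classical
  have : Fintype G := Fintype.ofFinite G
  rw [pr_eq, pr_eq, mul_left_comm]
  congr 1
  rw [Finset.mul_sum]
  refine Finset.sum_congr rfl fun g _ => ?_
  rw [Pi.smul_apply, zsmul_eq_mul]
  ring

/-- **The group theory.** -/
theorem main_grp (A : AI G Y) {τ : Perm Y} (hτ : Perm.sign τ = -1)
    (C : ∀ P : parts (Fintype.card Y), Cmp Y P) (I : ∀ P, Img A (C P)) {f : G → ℂ} (hf : Virt f) :
    ∃ r : parts (Fintype.card Y) → ℤ, (∀ P, pr f (A.kap (C P).g) = r P * (I P).D) ∧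
      Virt (f - ∑ P, r P • ind (I P).H (fun h => (((I P).lam h : ℂˣ) : ℂ))) ∧
      ∀ x, ∃ q : ℚ, (f - ∑ P, r P • ind (I P).H (fun h => (((I P).lam h : ℂˣ) : ℂ))) x = q := by
  classical
  have h1 : ∀ P : parts (Fintype.card Y), ∃ r : ℤ, pr f (A.kap (C P).g) = r * (I P).D := by
    intro P
    obtain ⟨γ, hγ⟩ := A.el (C P).split 1
    obtain ⟨γ', hγ'⟩ := A.el (C P).split τ
    have hγ1 : A.ι γ = (C P).g := by rw [hγ]; group
    obtain ⟨r, hr⟩ := (I P).exists_r hτ hγ1 hγ' hf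
    exact ⟨r, by rw [A.pr_kap (C P).split hτ hγ1 hγ' hf.conj, hr]⟩
  choose r hr using h1
  have hv : Virt (f - ∑ P, r P • ind (I P).H (fun h => (((I P).lam h : ℂˣ) : ℂ))) := by
    refine sub_mem (S := AddSubgroup (G → ℂ)) hf (sum_mem fun P _ => zsmul_mem ?_ _)
    exact virt_ind (I P).H (AddSubgroup.subset_closure (lin_irr (I P).lam))
  refine ⟨r, hr, hv, ?_⟩
  have h2 : ∀ Q, pr (f - ∑ P, r P • ind (I P).H (fun h => (((I P).lam h : ℂˣ) : ℂ)))
      (A.kap (C Q).g) = 0 := by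
    intro Q
    rw [pr_sub, pr_sum_left, Finset.sum_eq_single Q, pr_zsmul, hr Q]
    · exact sub_self _
    · intro P _ hPQ
      rw [pr_zsmul, (I P).pr_other (C Q) (fun h => hPQ (Subtype.ext h)), mul_zero]
    · intro h
      exact absurd (Finset.mem_univ _) h
  obtain ⟨χ₁, h₁, χ₂, h₂, he⟩ := virt_sub hv
  rw [he] at h2 ⊢
  intro x
  refine rat_of_pow h₁ h₂ x fun k hk => ?_
  refine pow_eq A hτ h₁ h₂ (fun P hP hs => ?_) x k hk
  by_cases hq : IsSquare (∏ m ∈ P, m)
  · obtain ⟨D⟩ := exists_cmp' (Y := Y) P hP hs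
    exact ⟨D, fun h => absurd hq h⟩
  · exact ⟨C ⟨P, mem_parts.mpr ⟨hP, hs, hq⟩⟩, fun _ => h2 _⟩

end grp

section inv

variable {M : Type} [CommGroup M] (B : ArtinInvariant M)
variable {K L : Type} [Field K] [NumberField K] [Field L] [NumberField L] [Algebra K L]
  [IsGalois K L]

lemma val_zsmul {f : (L ≃ₐ[K] L) → ℂ} {v : M} (h : Val B K L f v) (r : ℤ) :
    Val B K L (r • f) (v ^ r) := by
  have hn : ∀ n : ℕ, Val B K L (n • f) (v ^ n) := by
    intro n
    induction n with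
    | zero => rw [zero_smul, pow_zero]; exact Val.zero B
    | succ n ih => rw [succ_nsmul, pow_succ]; exact Val.add B ih h
  obtain ⟨n, rfl | rfl⟩ := r.eq_nat_or_neg
  · rw [natCast_zsmul, zpow_natCast]
    exact hn n
  · rw [neg_smul, natCast_zsmul, zpow_neg, zpow_natCast]
    exact Val.neg B (hn n)

lemma val_sum {ι : Type} (s : Finset ι) {f : ι → (L ≃ₐ[K] L) → ℂ} {v : ι → M}
    (h : ∀ i ∈ s, Val B K L (f i) (v i)) : Val B K L (∑ i ∈ s, f i) (∏ i ∈ s, v i) := by
  classical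
  induction s using Finset.induction_on with
  | empty => rw [Finset.sum_empty, Finset.prod_empty]; exact Val.zero B
  | insert a s ha ih =>
    rw [Finset.sum_insert ha, Finset.prod_insert ha]
    exact Val.add B (h a (Finset.mem_insert_self a s))
      (ih fun i hi => h i (Finset.mem_insert_of_mem hi))

instance : Finite (L ≃ₐ[K] L) :=
  have : FiniteDimensional K L := Module.Finite.of_restrictScalars_finite ℚ K L
  inferInstance

/-- the value of a rational valued virtual character -/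
lemma val_rat (hR : ∀ χ : (L ≃ₐ[K] L) → ℂ, IsChar χ → (∀ g, ∃ q : ℚ, χ g = q) → B.val K L χ = 1)
    {f : (L ≃ₐ[K] L) → ℂ} (hf : Virt f) (hq : ∀ g, ∃ q : ℚ, f g = q) : Val B K L f 1 := by
  obtain ⟨χ₁, h₁, χ₂, h₂, rfl⟩ := virt_sub hf
  obtain ⟨m, hm⟩ := exists_compl h₂
  have hc₁ : IsChar χ₁ := Pool.Agent.K4H74.SC.isChar_of_mem h₁
  have hx : IsChar (χ₁ + (m • regf (L ≃ₐ[K] L) - χ₂)) := hc₁.add hm
  have hr : IsChar (m • regf (L ≃ₐ[K] L)) := isChar_nsmul isChar_regf m
  have e1 := hR _ hx (fun g => by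
    obtain ⟨q, h⟩ := hq g
    obtain ⟨q', h'⟩ := regf_rat m g
    refine ⟨q + q', ?_⟩
    rw [Pi.add_apply, Pi.sub_apply, h']
    rw [Pi.sub_apply] at h
    push_cast
    rw [← h]
    ring)
  have e2 := hR _ hr (fun g => regf_rat m g)
  exact ⟨_, _, hx, hr, by abel, by rw [e1, e2, div_one]⟩

/-- **The value of an invariant at a character of an alternating group.** -/
theorem main_inv (hR : ∀ χ : (L ≃ₐ[K] L) → ℂ, IsChar χ → (∀ g, ∃ q : ℚ, χ g = q) → B.val K L χ = 1)
    {Y : Type} [Fintype Y] [DecidableEq Y] (A : AI (L ≃ₐ[K] L) Y) {τ : Perm Y}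
    (hτ : Perm.sign τ = -1) (C : ∀ P : parts (Fintype.card Y), Cmp Y P) (I : ∀ P, Img A (C P))
    {χ : (L ≃ₐ[K] L) → ℂ} (hχ : IsChar χ) :
    ∃ r : parts (Fintype.card Y) → ℤ, (∀ P, pr χ (A.kap (C P).g) = r P * (I P).D) ∧
      B.val K L χ = ∏ P, B.val K L (ind (I P).H (fun h => (((I P).lam h : ℂˣ) : ℂ))) ^ r P := by
  obtain ⟨r, hr, hv, hq⟩ := main_grp A hτ C I hχ.virt
  refine ⟨r, hr, ?_⟩
  have h1 : ∀ P, IsChar (ind (I P).H (fun h => (((I P).lam h : ℂˣ) : ℂ))) := fun P =>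
    Pool.Agent.K4H74.SC.isChar_ind _ (IsChar.lc _)
  have h2 := val_sum B Finset.univ (f := fun P => r P • ind (I P).H
    (fun h => (((I P).lam h : ℂˣ) : ℂ))) (fun P _ => val_zsmul B (Val.of_char B (h1 P)) (r P))
  have h3 := Val.add B (val_rat B hR hv hq) h2
  rw [sub_add_cancel, one_mul] at h3
  exact (Val.of_char B hχ).unique B h3

end inv

end Run7.h200.SP
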