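import Pool.Agent.Run7.h200.SP.Asm
import Pool.Agent.R389.RatOne

/-!
# Frobenius' theorem: an irreducible character of an alternating group is irrational on at most one
# pair of classes
-/

set_option autoImplicit false
set_option linter.unusedSectionVars false

open Equiv Function Pool.Agent.R389 Pool.Agent.W446.AS Pool.Agent.H541R3.ART

namespace Run7.h200.SP

section

variable {G : Type} [Group G] [Finite G] {Y : Type} [Fintype Y] [DecidableEq Y]

lemma eps_cases {g : Perm Y} (hg : Split g) (h : Perm Y) :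
    (¬ (∃ t : Perm Y, t * g * t⁻¹ = h) ∧ eps g h = 0) ∨
      ((∃ t : Perm Y, t * g * t⁻¹ = h) ∧ eps g h ^ 2 = 1 ∧ ‖eps g h‖ = 1) := by
  by_cases hh : ∃ t : Perm Y, t * g * t⁻¹ = h
  · right
    refine ⟨hh, ?_⟩
    obtain ⟨t, rfl⟩ := hh
    rw [eps_conj hg]
    rcases Int.units_eq_one_or (Perm.sign t) with h | h
    · rw [h]; simp
    · rw [h]; simp
  · exact Or.inl ⟨hh, eps_zero hh⟩

/-- the number of the elements of the two classes -/
lemma sum_eps_sq [Fintype G] (A : AI G Y) {g : Perm Y} (hg : Split g) {τ : Perm Y}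
    (hτ : Perm.sign τ = -1) :
    (Nat.card {s : Perm Y // s * g = g * s} : ℂ) * ∑ x : G, eps g (A.ι x) ^ 2 = 2 * Nat.card G := by
  obtain ⟨γ, hγ⟩ := A.el hg 1
  obtain ⟨γ', hγ'⟩ := A.el hg τ
  have hγ1 : A.ι γ = g := by rw [hγ]; group
  have h1 := A.pr_kap hg hτ hγ1 hγ' (F := fun x => eps g (A.ι x)) (fun x y => by
    rw [map_mul, map_mul, map_inv, eps_even hg (A.even y)])
  rw [hγ', eps_conj hg, hτ, hγ, eps_conj hg, map_one, pr_eq] at h1
  have h2 : ∀ x : G, eps g (A.ι x) * A.kap g x⁻¹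
      = (Nat.card {s : Perm Y // s * g = g * s} : ℂ) * eps g (A.ι x) ^ 2 := by
    intro x
    rw [AI.kap, inv_inv]
    ring
  rw [Finset.sum_congr rfl fun x _ => h2 x, ← Finset.mul_sum] at h1
  have hG : (Nat.card G : ℂ) ≠ 0 := card_ne
  rw [inv_mul_eq_iff_eq_mul₀ hG] at h1
  rw [h1]
  push_cast
  ring

/-- **Frobenius' theorem**, in terms of the coefficients. -/
theorem sum_r_sq (A : AI G Y) {τ : Perm Y} (hτ : Perm.sign τ = -1)
    (C : ∀ P : parts (Fintype.card Y), Cmp Y P) (I : ∀ P, Img A (C P)) {χ : G → ℂ}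
    (hχ : χ ∈ Irr G) (r : parts (Fintype.card Y) → ℤ)
    (hr : ∀ P, pr χ (A.kap (C P).g) = r P * (I P).D) : ∑ P, r P ^ 2 ≤ 1 := by
  classical
  have : Fintype G := Fintype.ofFinite G
  obtain ⟨s, hs⟩ := A.exists_lift ((MulAut.conj τ).toMonoidHom.comp A.ι) (fun w => by
    change Perm.sign (τ * A.ι w * τ⁻¹) = 1
    rw [map_mul, map_mul, A.even, mul_one, map_inv, mul_inv_cancel])
  have hs' : ∀ x, A.ι (s x) = τ * A.ι x * τ⁻¹ := hs
  have hsinj : Function.Injective s := by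
    intro a b h
    apply A.inj
    have h1 : τ * A.ι a * τ⁻¹ = τ * A.ι b * τ⁻¹ := by rw [← hs', ← hs', h]
    simpa using h1
  let se : G ≃ G := Equiv.ofBijective s (Finite.injective_iff_bijective.mp hsinj)
  have hm : χ ∈ AddSubmonoid.closure (Irr G) := AddSubmonoid.subset_closure hχ
  have hm' : (fun y => χ (s y)) ∈ AddSubmonoid.closure (Irr G) := by
    obtain ⟨n, ρ, -, rfl⟩ := hχ
    exact char_memP _ (ρ.comp s) rfl
  let u : G → ℂ := fun x => χ x - χ (s x)
  have hu : u = χ - fun y => χ (s y) := rfl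
  have hconj : ∀ x, u x⁻¹ = star (u x) := by
    intro x
    have e1 := heil_conj (Pool.Agent.K4H77.SL.heil_of_closure' hm) x
    have e2 := heil_conj (Pool.Agent.K4H77.SL.heil_of_closure' hm') x
    change χ x⁻¹ - χ (s x⁻¹) = star (χ x - χ (s x))
    rw [star_sub, e1]
    congr 1
  -- the upper bound
  have hup : ∑ x, ‖u x‖ ^ 2 ≤ 2 * (Nat.card G : ℝ) := by
    have h1 : ∑ x, ((‖u x‖ ^ 2 : ℝ) : ℂ) = pr u u * Nat.card G := by
      rw [← sum_eq_pr]
      refine Finset.sum_congr rfl fun x _ => ?_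
      rw [hconj]
      change _ = u x * (starRingEnd ℂ) (u x)
      rw [Complex.mul_conj, Complex.normSq_eq_norm_sq]
    obtain ⟨a, ha⟩ := Pool.Agent.K4H74.SC.pr_nat hm hm'
    have h2 : pr (fun y => χ (s y)) (fun y => χ (s y)) = 1 := by
      rw [← pr_self hχ, pr_eq, pr_eq]
      congr 1
      rw [← Equiv.sum_comp se (fun g => χ g * χ g⁻¹)]
      refine Finset.sum_congr rfl fun x _ => ?_
      change χ (s x) * χ (s x⁻¹) = χ (s x) * χ (s x)⁻¹
      rw [map_inv]
    have h3 : pr u u = 2 - 2 * a := by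
      rw [hu, pr_sub, pr_comm χ, pr_comm (fun y => χ (s y)), pr_sub, pr_sub, pr_self hχ, h2, ha,
        pr_comm, ha]
      ring
    have h4 : ((∑ x, ‖u x‖ ^ 2 : ℝ) : ℂ) = (((2 - 2 * a) * Nat.card G : ℝ) : ℂ) := by
      push_cast
      push_cast at h1
      rw [h1, h3]
    have h5 : ∑ x, ‖u x‖ ^ 2 = (2 - 2 * a) * (Nat.card G : ℝ) := by exact_mod_cast h4
    rw [h5]
    have h6 : (0 : ℝ) ≤ a := Nat.cast_nonneg a
    have h7 : (0 : ℝ) ≤ Nat.card G := Nat.cast_nonneg _
    nlinarith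
  -- the lower bound
  have hD : ∀ P, ‖(I P).D‖ ^ 2 = ((∏ m ∈ P.1, m : ℕ) : ℝ) := by
    intro P
    have h1 := (I P).D_star
    change (I P).D * (starRingEnd ℂ) (I P).D = _ at h1
    rw [Complex.mul_conj, Complex.normSq_eq_norm_sq] at h1
    exact_mod_cast h1
  have hval : ∀ (P : parts (Fintype.card Y)) (x : G),
      (∃ t : Perm Y, t * (C P).g * t⁻¹ = A.ι x) →
      ‖u x‖ ^ 2 = (r P : ℝ) ^ 2 * ((∏ m ∈ P.1, m : ℕ) : ℝ) := by
    intro P x hx
    obtain ⟨γ, hγ⟩ := A.el (C P).split 1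
    obtain ⟨γ', hγ'⟩ := A.el (C P).split τ
    have hγ1 : A.ι γ = (C P).g := by rw [hγ]; group
    have h1 := A.diff (C P).split hτ hγ1 hγ' (Irr.conj hχ) (hs' x) (Or.inl hx)
    have h2 := A.pr_kap (C P).split hτ hγ1 hγ' (F := χ) (Irr.conj hχ)
    change ‖χ x - χ (s x)‖ ^ 2 = _
    rw [h1, ← h2, hr P, norm_mul, norm_mul]
    rcases eps_cases (C P).split (A.ι x) with h | h
    · exact absurd hx h.1
    · rw [h.2.2, one_mul, mul_pow, hD]
      congr 1
      simp
  have hlow : ∑ x : G, ∑ P : parts (Fintype.card Y),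
      (r P : ℝ) ^ 2 * ((∏ m ∈ P.1, m : ℕ) : ℝ) * ‖eps (C P).g (A.ι x)‖ ^ 2 ≤ ∑ x, ‖u x‖ ^ 2 := by
    refine Finset.sum_le_sum fun x _ => ?_
    by_cases hx : ∃ P : parts (Fintype.card Y), ∃ t : Perm Y, t * (C P).g * t⁻¹ = A.ι x
    · obtain ⟨P, hP⟩ := hx
      rw [Finset.sum_eq_single P]
      · rcases eps_cases (C P).split (A.ι x) with h | h
        · exact absurd hP h.1
        · rw [h.2.2, hval P x hP]
          simp
      · intro Q _ hQ
        rcases eps_cases (C Q).split (A.ι x) with h | h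
        · rw [h.2]
          simp
        · exfalso
          apply hQ
          obtain ⟨t, ht⟩ := hP
          obtain ⟨t', ht'⟩ := h.1
          apply Subtype.ext
          ext m
          rw [← (C Q).per m, ← (C P).per m, ← exists_per_conj (C Q).g t' m, ht', ← ht,
            exists_per_conj]
      · intro h
        exact absurd (Finset.mem_univ _) h
    · rw [Finset.sum_eq_zero]
      · positivity
      · intro P _
        rcases eps_cases (C P).split (A.ι x) with h | h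
        · rw [h.2]
          simp
        · exact absurd ⟨P, h.1⟩ hx
  have hcount : ∀ P : parts (Fintype.card Y),
      ((∏ m ∈ P.1, m : ℕ) : ℝ) * ∑ x : G, ‖eps (C P).g (A.ι x)‖ ^ 2 = 2 * Nat.card G := by
    intro P
    have h1 := sum_eps_sq A (C P).split hτ
    rw [(C P).cent] at h1
    have h2 : ∑ x : G, eps (C P).g (A.ι x) ^ 2 = ((∑ x : G, ‖eps (C P).g (A.ι x)‖ ^ 2 : ℝ) : ℂ) := by
      push_cast
      refine Finset.sum_congr rfl fun x _ => ?_
      rcases eps_cases (C P).split (A.ι x) with h | h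
      · rw [h.2]; simp
      · rw [h.2.1, h.2.2]; simp
    rw [h2] at h1
    exact_mod_cast h1
  rw [Finset.sum_comm] at hlow
  have h1 : ∀ P : parts (Fintype.card Y), ∑ x : G, (r P : ℝ) ^ 2 * ((∏ m ∈ P.1, m : ℕ) : ℝ) *
      ‖eps (C P).g (A.ι x)‖ ^ 2 = (r P : ℝ) ^ 2 * (2 * Nat.card G) := by
    intro P
    rw [← Finset.mul_sum, mul_assoc, hcount P]
  rw [Finset.sum_congr rfl fun P _ => h1 P, ← Finset.sum_mul] at hlow
  have h2 : (∑ P, (r P : ℝ) ^ 2) * (2 * Nat.card G) ≤ 2 * Nat.card G := hlow.trans hup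
  have h3 : (0 : ℝ) < 2 * Nat.card G := by
    have : 0 < Nat.card G := Nat.card_pos
    positivity
  have h4 : ∑ P, (r P : ℝ) ^ 2 ≤ 1 := by
    by_contra h
    push Not at h
    have := mul_lt_mul_of_pos_right h h3
    linarith
  exact_mod_cast h4

end

end Run7.h200.SP
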