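import Pool.Agent.Run7.h200.SP.Spl
import Pool.Agent.R389.Compl

/-!
# Virtual characters of alternating groups
-/

set_option autoImplicit false
set_option linter.unusedSectionVars false

open Equiv Function Pool.Agent.R389 Pool.Agent.W446.AS Pool.Agent.H541R3.ART

namespace Run7.h200.SP

/-- an isomorphism of `G` with the alternating group of `Y` -/
structure AI (G Y : Type) [Group G] [Fintype Y] [DecidableEq Y] where
  /-- the embedding -/
  ι : G →* Perm Y
  inj : Function.Injective ι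
  even : ∀ x, Perm.sign (ι x) = 1
  mem : ∀ σ : Perm Y, Perm.sign σ = 1 → ∃ x, ι x = σ

section

variable {Y : Type} [Fintype Y] [DecidableEq Y] {G : Type} [Group G] [Finite G] (A : AI G Y)

lemma AI.exists_lift {W : Type} [Group W] (φ : W →* Perm Y) (h : ∀ w, Perm.sign (φ w) = 1) :
    ∃ ψ : W →* G, ∀ w, A.ι (ψ w) = φ w := by
  choose f hf using fun w => A.mem (φ w) (h w)
  refine ⟨MonoidHom.mk' f fun a b => A.inj ?_, hf⟩
  rw [map_mul, hf, hf, hf, map_mul]

lemma AI.el {g : Perm Y} (hg : Split g) (c : Perm Y) : ∃ x, A.ι x = c * g * c⁻¹ := by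
  apply A.mem
  rw [map_mul, map_mul, hg g rfl, mul_one, map_inv, mul_inv_cancel]

/-- a class function takes the same value at elements which are conjugate under an even
permutation -/
lemma AI.cls {F : G → ℂ} (hF : ∀ g x : G, F (x * g * x⁻¹) = F g) {x y : G} {a : Perm Y}
    (ha : Perm.sign a = 1) (h : a * A.ι x * a⁻¹ = A.ι y) : F y = F x := by
  obtain ⟨b, rfl⟩ := A.mem a ha
  rw [← hF x b]
  congr 1
  apply A.inj
  rw [map_mul, map_mul, map_inv, h]

lemma eps_even {g : Perm Y} (hg : Split g) {a : Perm Y} (ha : Perm.sign a = 1) (h : Perm Y) :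
    eps g (a * h * a⁻¹) = eps g h := by
  by_cases hh : ∃ t : Perm Y, t * g * t⁻¹ = h
  · obtain ⟨t, rfl⟩ := hh
    have h1 : a * (t * g * t⁻¹) * a⁻¹ = (a * t) * g * (a * t)⁻¹ := by group
    rw [h1, eps_conj hg, eps_conj hg, map_mul, ha, one_mul]
  · rw [eps_zero hh, eps_zero]
    rintro ⟨t, ht⟩
    exact hh ⟨a⁻¹ * t, by
      have : a⁻¹ * t * g * (a⁻¹ * t)⁻¹ = a⁻¹ * (t * g * t⁻¹) * a := by group
      rw [this, ht]
      group⟩

lemma AI.cnt_pos {g : Perm Y} (hg : Split g) {c t : Perm Y} {γ x : G} (hγ : A.ι γ = c * g * c⁻¹)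
    (ht : t * g * t⁻¹ = A.ι x) (hs : Perm.sign t = Perm.sign c) :
    Nat.card {a : G // a * γ * a⁻¹ = x} = Nat.card {s : Perm Y // s * g = g * s} := by
  have key : ∀ a : G, a * γ * a⁻¹ = x ↔ (t⁻¹ * A.ι a * c) * g = g * (t⁻¹ * A.ι a * c) := by
    intro a
    rw [← A.inj.eq_iff, map_mul, map_mul, map_inv, hγ, ← ht]
    constructor
    · intro h
      have h1 : A.ι a * c * g = t * g * t⁻¹ * (A.ι a * c) := by
        rw [← h]
        group
      calc (t⁻¹ * A.ι a * c) * g = t⁻¹ * (A.ι a * c * g) := by group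
        _ = _ := by rw [h1]; group
    · intro h
      calc A.ι a * (c * g * c⁻¹) * (A.ι a)⁻¹ = t * ((t⁻¹ * A.ι a * c) * g) * (c⁻¹ * (A.ι a)⁻¹) := by
            group
        _ = _ := by rw [h]; group
  refine Nat.card_eq_of_bijective (fun a => ⟨t⁻¹ * A.ι a.1 * c, (key a.1).mp a.2⟩) ⟨?_, ?_⟩
  · intro a b h
    have h1 := congrArg Subtype.val h
    simp only [mul_left_inj, mul_right_inj] at h1
    exact Subtype.ext (A.inj h1)
  · rintro ⟨s, hs'⟩
    obtain ⟨a, ha⟩ := A.mem (t * s * c⁻¹) (by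
      rw [map_mul, map_mul, hg s hs', mul_one, map_inv, hs, mul_inv_cancel])
    have h1 : t⁻¹ * A.ι a * c = s := by rw [ha]; group
    exact ⟨⟨a, (key a).mpr (by rw [h1]; exact hs')⟩, Subtype.ext h1⟩

lemma AI.cnt_zero {g : Perm Y} {c : Perm Y} {γ x : G} (hγ : A.ι γ = c * g * c⁻¹)
    (h : ∀ t : Perm Y, t * g * t⁻¹ = A.ι x → Perm.sign t ≠ Perm.sign c) :
    Nat.card {a : G // a * γ * a⁻¹ = x} = 0 := by
  have : IsEmpty {a : G // a * γ * a⁻¹ = x} := ⟨fun ⟨a, ha⟩ => by
    refine h (A.ι a * c) ?_ (by rw [map_mul, A.even, one_mul])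
    rw [← ha, map_mul, map_mul, map_inv, hγ]
    group⟩
  exact Nat.card_of_isEmpty

lemma AI.cnt {g : Perm Y} (hg : Split g) {τ : Perm Y} (hτ : Perm.sign τ = -1) {γ γ' : G}
    (hγ : A.ι γ = g) (hγ' : A.ι γ' = τ * g * τ⁻¹) (x : G) :
    (Nat.card {s : Perm Y // s * g = g * s} : ℂ) * eps g (A.ι x) =
      (Nat.card {a : G // a * γ * a⁻¹ = x} : ℂ) - Nat.card {a : G // a * γ' * a⁻¹ = x} := by
  have hγ1 : A.ι γ = 1 * g * 1⁻¹ := by rw [hγ]; group
  by_cases hh : ∃ t : Perm Y, t * g * t⁻¹ = A.ι x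
  · obtain ⟨t, ht⟩ := hh
    have hu : ∀ t' : Perm Y, t' * g * t'⁻¹ = A.ι x → Perm.sign t' = Perm.sign t := by
      intro t' ht'
      have h2 : (t⁻¹ * t') * g = g * (t⁻¹ * t') := by
        have : t' * g = t * g * t⁻¹ * t' := by rw [ht, ← ht']; group
        rw [mul_assoc, this]
        group
      have h3 := hg _ h2
      rw [map_mul, map_inv, inv_mul_eq_one] at h3
      exact h3.symm
    rw [← ht, eps_conj hg]
    rcases Int.units_eq_one_or (Perm.sign t) with h1 | h1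
    · rw [A.cnt_pos hg hγ1 ht (by rw [h1, map_one]), A.cnt_zero hγ' (by
        intro t' ht'
        rw [hu t' ht', h1, hτ]
        decide), h1]
      simp
    · rw [A.cnt_pos hg hγ' ht (by rw [h1, hτ]), A.cnt_zero hγ1 (by
        intro t' ht'
        rw [hu t' ht', h1, map_one]
        decide), h1]
      simp
  · rw [eps_zero hh, A.cnt_zero hγ1 (fun t ht => absurd ⟨t, ht⟩ hh),
      A.cnt_zero hγ' (fun t ht => absurd ⟨t, ht⟩ hh)]
    simp

/-- the class function whose pairing with `F` is `F γ - F γ'` -/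
noncomputable def AI.kap (g : Perm Y) (x : G) : ℂ :=
  (Nat.card {s : Perm Y // s * g = g * s} : ℂ) * eps g (A.ι x⁻¹)

lemma AI.kap_class {g : Perm Y} (hg : Split g) (x y : G) :
    A.kap g (y * x * y⁻¹) = A.kap g x := by
  unfold AI.kap
  congr 1
  have h1 : A.ι (y * x * y⁻¹)⁻¹ = A.ι y * A.ι x⁻¹ * (A.ι y)⁻¹ := by
    rw [← map_inv, ← map_mul, ← map_mul]
    congr 1
    group
  rw [h1, eps_even hg (A.even y)]

lemma AI.pr_kap {g : Perm Y} (hg : Split g) {τ : Perm Y} (hτ : Perm.sign τ = -1) {γ γ' : G}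
    (hγ : A.ι γ = g) (hγ' : A.ι γ' = τ * g * τ⁻¹) {F : G → ℂ}
    (hF : ∀ g x : G, F (x * g * x⁻¹) = F g) : pr F (A.kap g) = F γ - F γ' := by
  classical
  have : Fintype G := Fintype.ofFinite G
  have hc : ∀ (δ x : G), (Nat.card {a : G // a * δ * a⁻¹ = x} : ℂ)
      = ∑ a : G, if a * δ * a⁻¹ = x then 1 else 0 := by
    intro δ x
    rw [Nat.card_eq_fintype_card, Fintype.card_subtype, Finset.sum_boole]
  have hs : ∀ δ : G, ∑ x, F x * (∑ a : G, if a * δ * a⁻¹ = x then (1 : ℂ) else 0)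
      = Nat.card G * F δ := by
    intro δ
    simp only [Finset.mul_sum]
    rw [Finset.sum_comm]
    have h1 : ∀ a : G, ∑ x, F x * (if a * δ * a⁻¹ = x then (1 : ℂ) else 0) = F δ := by
      intro a
      simp only [mul_ite, mul_one, mul_zero, Finset.sum_ite_eq, Finset.mem_univ, if_true]
      exact hF δ a
    rw [Finset.sum_congr rfl fun a _ => h1 a, Finset.sum_const, Finset.card_univ, nsmul_eq_mul,
      Nat.card_eq_fintype_card]
  rw [pr_eq]
  have h2 : ∀ x : G, F x * A.kap g x⁻¹ = F x * (∑ a : G, if a * γ * a⁻¹ = x then (1 : ℂ) else 0)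
      - F x * (∑ a : G, if a * γ' * a⁻¹ = x then (1 : ℂ) else 0) := by
    intro x
    rw [AI.kap, inv_inv, A.cnt hg hτ hγ hγ', hc, hc, mul_sub]
  rw [Finset.sum_congr rfl fun x _ => h2 x, Finset.sum_sub_distrib, hs, hs, ← mul_sub, ← mul_assoc,
    inv_mul_cancel₀ card_ne, one_mul]

/-- the difference of the values at `h` and its conjugate under an odd permutation -/
lemma AI.diff {g : Perm Y} (hg : Split g) {τ : Perm Y} (hτ : Perm.sign τ = -1) {γ γ' : G}
    (hγ : A.ι γ = g) (hγ' : A.ι γ' = τ * g * τ⁻¹) {F : G → ℂ}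
    (hF : ∀ g x : G, F (x * g * x⁻¹) = F g) {h h' : G} (hh' : A.ι h' = τ * A.ι h * τ⁻¹)
    (hn : (∃ t : Perm Y, t * g * t⁻¹ = A.ι h) ∨ ∃ t : Perm Y, Perm.sign t = -1 ∧
      t * A.ι h = A.ι h * t) :
    F h - F h' = eps g (A.ι h) * (F γ - F γ') := by
  rcases hn with ⟨t, ht⟩ | ⟨t, ht, htc⟩
  · rw [← ht, eps_conj hg]
    rcases Int.units_eq_one_or (Perm.sign t) with h1 | h1
    · have e1 : F h = F γ := A.cls hF (a := t) h1 (by rw [hγ, ht])
      have e2 : F h' = F γ' := A.cls hF (a := τ * t * τ⁻¹) (by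
        rw [map_mul, map_mul, h1, mul_one, map_inv, mul_inv_cancel]) (by
        rw [hγ', hh', ← ht]
        group)
      rw [e1, e2, h1]
      simp
    · have e1 : F h = F γ' := A.cls hF (a := t * τ⁻¹) (by
        rw [map_mul, map_inv, h1, hτ]
        decide) (by
        rw [hγ', ← ht]
        group)
      have e2 : F h' = F γ := A.cls hF (a := τ * t) (by
        rw [map_mul, h1, hτ]
        decide) (by
        rw [hγ, hh', ← ht]
        group)
      rw [e1, e2, h1]
      simp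
  · have e1 : F h' = F h := A.cls hF (a := τ * t) (by
      rw [map_mul, ht, hτ]
      decide) (by
      rw [hh']
      have : τ * t * A.ι h * (τ * t)⁻¹ = τ * (t * A.ι h) * t⁻¹ * τ⁻¹ := by group
      rw [this, htc]
      group)
    have e2 : eps g (A.ι h) = 0 ∨ F γ - F γ' = 0 := by
      by_cases hh : ∃ s : Perm Y, s * g * s⁻¹ = A.ι h
      · exfalso
        obtain ⟨s, hs⟩ := hh
        have h2 : (s⁻¹ * t * s) * g = g * (s⁻¹ * t * s) := by
          have h3 : g = s⁻¹ * A.ι h * s := by rw [← hs]; group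
          calc (s⁻¹ * t * s) * g = s⁻¹ * (t * A.ι h) * s := by rw [h3]; group
            _ = s⁻¹ * (A.ι h * t) * s := by rw [htc]
            _ = g * (s⁻¹ * t * s) := by rw [h3]; group
        have h4 := hg _ h2
        rw [map_mul, map_mul, ht, map_inv] at h4
        have h5 : (Perm.sign s)⁻¹ * -1 * Perm.sign s = -1 := by
          rw [mul_comm, ← mul_assoc, mul_inv_cancel, one_mul]
        rw [h5] at h4
        exact absurd h4 (by decide)
      · exact Or.inl (eps_zero hh)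
    rw [e1, sub_self]
    rcases e2 with h2 | h2
    · rw [h2, zero_mul]
    · rw [h2, mul_zero]

end

lemma eps_conj_star {Y : Type} [Fintype Y] [DecidableEq Y] (g h : Perm Y) :
    star (eps g h) = eps g h := by
  unfold eps
  split_ifs
  · simp
  · simp

lemma star_lam {W : Type} [Group W] [Finite W] (lam : W →* ℂˣ) (w : W) :
    star ((lam w : ℂˣ) : ℂ) = ((lam w⁻¹ : ℂˣ) : ℂ) := by
  have h1 : ((lam w : ℂˣ) : ℂ) ^ Nat.card W = 1 := by
    rw [← Units.val_pow_eq_pow_val, ← map_pow, pow_card_eq_one', map_one, Units.val_one]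
  have h2 : ‖((lam w : ℂˣ) : ℂ)‖ = 1 := Complex.norm_eq_one_of_pow_eq_one h1 Nat.card_pos.ne'
  rw [map_inv, Units.val_inv_eq_inv_val, Complex.inv_def, Complex.normSq_eq_norm_sq, h2]
  simp

/-- the image of the group in `G` -/
structure Img {Y : Type} [Fintype Y] [DecidableEq Y] {G : Type} [Group G] (A : AI G Y)
    {P : Finset ℕ} (C : Cmp Y P) where
  /-- the homomorphism -/
  ψ : C.W →* G
  hψ : ∀ w, A.ι (ψ w) = C.φ w

section img

variable {Y : Type} [Fintype Y] [DecidableEq Y] {G : Type} [Group G] [Finite G] {A : AI G Y}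
  {P : Finset ℕ} {C : Cmp Y P}

lemma Cmp.even (C : Cmp Y P) (w : C.W) : Perm.sign (C.φ w) = 1 := by
  refine odd_unit C.odd ?_
  rw [← map_pow, ← map_pow, pow_card_eq_one, map_one, map_one]

lemma exists_img (A : AI G Y) (C : Cmp Y P) : Nonempty (Img A C) := by
  obtain ⟨ψ, hψ⟩ := A.exists_lift C.φ C.even
  exact ⟨⟨ψ, hψ⟩⟩

lemma Img.inj (I : Img A C) : Function.Injective I.ψ := by
  intro a b h
  apply C.inj
  rw [← I.hψ, ← I.hψ, h]

/-- the subgroup -/
def Img.H (I : Img A C) : Subgroup G := I.ψ.range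

/-- the isomorphism -/
noncomputable def Img.e (I : Img A C) : C.W ≃* I.H := MonoidHom.ofInjective I.inj

/-- the linear character -/
noncomputable def Img.lam (I : Img A C) : I.H →* ℂˣ := C.lam.comp I.e.symm.toMonoidHom

lemma Img.e_coe (I : Img A C) (w : C.W) : ((I.e w : I.H) : G) = I.ψ w := rfl

lemma Img.lam_e (I : Img A C) (w : C.W) : I.lam (I.e w) = C.lam w := by
  change C.lam (I.e.symm (I.e w)) = _
  rw [MulEquiv.symm_apply_apply]

lemma Img.card (I : Img A C) : Nat.card I.H = Fintype.card C.W := by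
  rw [← Nat.card_congr I.e.toEquiv, Nat.card_eq_fintype_card]

/-- the difference of the values of the induced character -/
noncomputable def Img.D (I : Img A C) : ℂ := pr (ind I.H (fun h => ((I.lam h : ℂˣ) : ℂ))) (A.kap C.g)

lemma Img.pr_ind (I : Img A C) {g : Perm Y} (hg : Split g) :
    pr (ind I.H (fun h => ((I.lam h : ℂˣ) : ℂ))) (A.kap g) =
      (Fintype.card C.W : ℂ)⁻¹ * ((Nat.card {s : Perm Y // s * g = g * s} : ℂ) *
        ∑ w, eps g (C.φ w) * ((C.lam w : ℂˣ) : ℂ)) := by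
  classical
  have : Fintype I.H := Fintype.ofFinite I.H
  rw [frob I.H _ (fun x y => A.kap_class hg x y), pr_eq, I.card, ← Equiv.sum_comp I.e.toEquiv]
  congr 1
  rw [Finset.mul_sum]
  refine Finset.sum_congr rfl fun w _ => ?_
  change ((I.lam (I.e w) : ℂˣ) : ℂ) * A.kap g (((I.e w)⁻¹ : I.H) : G) = _
  rw [I.lam_e, AI.kap, Subgroup.coe_inv, inv_inv, I.e_coe, I.hψ]
  ring

lemma Img.D_eq (I : Img A C) : I.D = (Fintype.card C.W : ℂ)⁻¹ * (((∏ m ∈ P, m : ℕ) : ℂ) *
    ∑ w, eps C.g (C.φ w) * ((C.lam w : ℂˣ) : ℂ)) := by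
  rw [Img.D, I.pr_ind C.split, C.cent]

lemma Img.D_sq (I : Img A C) : I.D ^ 2 =
    ((ZMod.χ₄ ((∏ m ∈ P, m : ℕ) : ZMod 4) : ℤ) : ℂ) * ((∏ m ∈ P, m : ℕ) : ℂ) := by
  have h0 : (Fintype.card C.W : ℂ) ≠ 0 := by exact_mod_cast C.odd.pos.ne'
  rw [I.D_eq, mul_pow, C.P2]
  field_simp

end img

end Run7.h200.SP
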