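import Pool.Agent.Run7.h200.SP.Gr
import Pool.Agent.K4H77.SL.Rat

/-!
# Integrality and rationality
-/

set_option autoImplicit false
set_option linter.unusedSectionVars false

open Equiv Function Pool.Agent.R389 Pool.Agent.W446.AS Pool.Agent.H541R3.ART

namespace Run7.h200.SP

section

variable {Y : Type} [Fintype Y] [DecidableEq Y] {G : Type} [Group G] [Finite G] {A : AI G Y}
  {P : Finset ℕ} {C : Cmp Y P}

lemma Cmp.odd_mem (C : Cmp Y P) {m : ℕ} (hm : m ∈ P) : Odd m := by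
  obtain ⟨x, rfl⟩ := (C.per m).mpr hm
  exact (split_facts C.split).1 x

lemma Cmp.odd_prod (C : Cmp Y P) : Odd (∏ m ∈ P, m) :=
  Finset.prod_induction _ Odd (fun _ _ => Odd.mul) odd_one fun _ h => C.odd_mem h

lemma chi_sq {N : ℕ} (hN : Odd N) : ZMod.χ₄ (N : ZMod 4) ^ 2 = 1 := by
  rw [ZMod.χ₄_nat_eq_if_mod_four]
  have h1 : ¬ N % 2 = 0 := by
    have := Nat.odd_iff.mp hN
    omega
  rw [if_neg h1]
  split_ifs <;> norm_num

lemma Img.D_star (I : Img A C) : I.D * star I.D = ((∏ m ∈ P, m : ℕ) : ℂ) := by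
  have h1 : ‖I.D‖ ^ 2 = ((∏ m ∈ P, m : ℕ) : ℝ) := by
    have h2 : ‖I.D ^ 2‖ = ((∏ m ∈ P, m : ℕ) : ℝ) := by
      rw [I.D_sq, norm_mul, Complex.norm_natCast]
      have h3 : ‖((ZMod.χ₄ ((∏ m ∈ P, m : ℕ) : ZMod 4) : ℤ) : ℂ)‖ = 1 := by
        have h0 := chi_sq C.odd_prod
        rw [pow_two] at h0
        rcases mul_self_eq_one_iff.mp h0 with h | h
        · rw [h]; simp
        · rw [h]; simp
      rw [h3, one_mul]
    rw [← h2, norm_pow]
  have h4 : I.D * star I.D = ((‖I.D‖ ^ 2 : ℝ) : ℂ) := by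
    change I.D * (starRingEnd ℂ) I.D = _
    rw [Complex.mul_conj, Complex.normSq_eq_norm_sq]
  rw [h4, h1]
  push_cast
  rfl

lemma Cmp.alt (C : Cmp Y P) (w : C.W) : (∃ t : Perm Y, t * C.g * t⁻¹ = C.φ w) ∨
    ∃ t : Perm Y, Perm.sign t = -1 ∧ t * C.φ w = C.φ w * t := by
  by_cases h : Split (C.φ w)
  · exact Or.inl (C.P1 w (split_facts h).2)
  · right
    unfold Split at h
    push Not at h
    obtain ⟨t, ht, hs⟩ := h
    exact ⟨t, (Int.units_eq_one_or _).resolve_left hs, ht⟩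

/-- **Integrality.** -/
theorem Img.exists_r (I : Img A C) {τ : Perm Y} (hτ : Perm.sign τ = -1) {γ γ' : G}
    (hγ : A.ι γ = C.g) (hγ' : A.ι γ' = τ * C.g * τ⁻¹) {F : G → ℂ} (hF : Virt F) :
    ∃ r : ℤ, F γ - F γ' = r * I.D := by
  classical
  have : Fintype G := Fintype.ofFinite G
  have : Fintype I.H := Fintype.ofFinite I.H
  have hW : (Fintype.card C.W : ℂ) ≠ 0 := by exact_mod_cast C.odd.pos.ne'
  have hN : ((∏ m ∈ P, m : ℕ) : ℂ) ≠ 0 := by exact_mod_cast C.odd_prod.pos.ne'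
  obtain ⟨s, hs⟩ := A.exists_lift ((MulAut.conj τ).toMonoidHom.comp A.ι) (fun w => by
    change Perm.sign (τ * A.ι w * τ⁻¹) = 1
    rw [map_mul, map_mul, A.even, mul_one, map_inv, mul_inv_cancel])
  have hs' : ∀ x, A.ι (s x) = τ * A.ι x * τ⁻¹ := hs
  have hv : Virt (fun h : I.H => F h - F (s h)) := by
    have h1 : Virt (fun h : I.H => F h) := Virt.comp hF I.H.subtype
    have h2 : Virt (fun h : I.H => F (s h)) := Virt.comp hF (s.comp I.H.subtype)
    exact sub_mem (S := AddSubgroup (I.H → ℂ)) h1 h2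
  have hl : Virt (fun h : I.H => ((I.lam h : ℂˣ) : ℂ)) :=
    AddSubgroup.subset_closure (lin_irr I.lam)
  obtain ⟨r, hr⟩ := Virt.pr_int' hv hl
  refine ⟨r, ?_⟩
  have h3 : pr (fun h : I.H => F h - F (s h)) (fun h : I.H => ((I.lam h : ℂˣ) : ℂ)) =
      (Fintype.card C.W : ℂ)⁻¹ * ((F γ - F γ') *
        ∑ w, eps C.g (C.φ w) * ((C.lam w⁻¹ : ℂˣ) : ℂ)) := by
    rw [pr_eq, I.card, ← Equiv.sum_comp I.e.toEquiv]
    congr 1
    rw [Finset.mul_sum]
    refine Finset.sum_congr rfl fun w _ => ?_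
    change (F (I.ψ w) - F (s (I.ψ w))) * ((I.lam ((I.e w)⁻¹) : ℂˣ) : ℂ) = _
    rw [← map_inv, I.lam_e, A.diff C.split hτ hγ hγ' hF.conj (hs' _) (by
      rw [I.hψ]
      exact C.alt w), I.hψ]
    ring
  have h4 : star I.D = (Fintype.card C.W : ℂ)⁻¹ * (((∏ m ∈ P, m : ℕ) : ℂ) *
      ∑ w, eps C.g (C.φ w) * ((C.lam w⁻¹ : ℂˣ) : ℂ)) := by
    rw [I.D_eq, star_mul', star_mul', star_sum]
    congr 1
    · simp
    · congr 1
      · simp
      · refine Finset.sum_congr rfl fun w _ => ?_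
        rw [star_mul', eps_conj_star, star_lam]
  have h5 : (r : ℂ) * ((∏ m ∈ P, m : ℕ) : ℂ) = (F γ - F γ') * star I.D := by
    rw [← hr, h3, h4]
    ring
  have h6 : (F γ - F γ') * ((∏ m ∈ P, m : ℕ) : ℂ) = (r * I.D) * ((∏ m ∈ P, m : ℕ) : ℂ) := by
    calc (F γ - F γ') * ((∏ m ∈ P, m : ℕ) : ℂ) = ((F γ - F γ') * star I.D) * I.D := by
          rw [← I.D_star]
          ring
      _ = _ := by rw [← h5]; ring
  exact mul_right_cancel₀ hN h6

lemma exists_per_conj (g t : Perm Y) (m : ℕ) :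
    (∃ x, minimalPeriod (t * g * t⁻¹ : Perm Y) x = m) ↔ ∃ x, minimalPeriod g x = m := by
  constructor
  · rintro ⟨x, hx⟩
    exact ⟨t⁻¹ x, by rw [← hx, per_conj]⟩
  · rintro ⟨x, hx⟩
    refine ⟨t x, ?_⟩
    rw [per_conj, ← hx]
    congr 1
    exact t.symm_apply_apply x

/-- the induced characters for different partitions are independent -/
theorem Img.pr_other (I : Img A C) {P' : Finset ℕ} (C' : Cmp Y P') (h : P ≠ P') :
    pr (ind I.H (fun h => ((I.lam h : ℂˣ) : ℂ))) (A.kap C'.g) = 0 := by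
  rw [I.pr_ind C'.split, Finset.sum_eq_zero, mul_zero, mul_zero]
  intro w _
  rw [eps_zero, zero_mul]
  rintro ⟨t, ht⟩
  apply h
  have h1 := C'.dc.conj t
  rw [ht] at h1
  obtain ⟨t', ht'⟩ := C.P1 w h1
  ext m
  rw [← C.per m, ← C'.per m, ← exists_per_conj C.g t' m, ht', ← ht, exists_per_conj]

/-- values which are invariant under the powers prime to the order are rational -/
theorem rat_of_pow {χ₁ χ₂ : G → ℂ} (h₁ : χ₁ ∈ AddSubmonoid.closure (Irr G))
    (h₂ : χ₂ ∈ AddSubmonoid.closure (Irr G)) (x : G)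
    (h : ∀ k : ℕ, k.Coprime (orderOf x) → χ₁ (x ^ k) - χ₂ (x ^ k) = χ₁ x - χ₂ x) :
    ∃ q : ℚ, χ₁ x - χ₂ x = q := by
  have hn : NeZero (orderOf x) := ⟨(orderOf_pos x).ne'⟩
  have hn' : NeZero ((orderOf x : ℕ) : ℚ) := ⟨by exact_mod_cast (orderOf_pos x).ne'⟩
  have hcyc : IsCyclotomicExtension {orderOf x} ℚ (CyclotomicField (orderOf x) ℚ) :=
    CyclotomicField.isCyclotomicExtension (orderOf x) ℚ
  let K := CyclotomicField (orderOf x) ℚ
  have hcyc' : IsCyclotomicExtension {orderOf x} ℚ K := hcyc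
  have hz : IsPrimitiveRoot (IsCyclotomicExtension.zeta (orderOf x) ℚ K) (orderOf x) :=
    IsCyclotomicExtension.zeta_spec _ _ _
  set z := IsCyclotomicExtension.zeta (orderOf x) ℚ K
  let φ : K →ₐ[ℚ] ℂ := IsAlgClosed.lift
  have hφ : Function.Injective φ := (φ : K →+* ℂ).injective
  have hζ : IsPrimitiveRoot (φ z) (orderOf x) := hz.map_of_injective hφ
  obtain ⟨P₁, hP₁⟩ := Pool.Agent.K4H77.SL.expand_cyc (Pool.Agent.K4H77.SL.heil_of_closure' h₁) x hζ
  obtain ⟨P₂, hP₂⟩ := Pool.Agent.K4H77.SL.expand_cyc (Pool.Agent.K4H77.SL.heil_of_closure' h₂) x hζ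
  have hP : ∀ k : ℕ, χ₁ (x ^ k) - χ₂ (x ^ k) = φ (Polynomial.aeval (z ^ k) (P₁ - P₂)) := by
    intro k
    rw [hP₁, hP₂, map_sub, map_sub]
    have e1 : ∀ Q : Polynomial ℤ, φ (Polynomial.aeval (z ^ k) Q) = Polynomial.aeval (φ z ^ k) Q := by
      intro Q
      rw [← map_pow]
      exact (Polynomial.aeval_algHom_apply (φ.restrictScalars ℤ) (z ^ k) Q).symm
    rw [e1, e1]
  have hgal : IsGalois ℚ K := IsCyclotomicExtension.isGalois {orderOf x} ℚ K
  have hy : Polynomial.aeval z (P₁ - P₂) ∈ (⊥ : IntermediateField ℚ K) := by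
    have hfin : FiniteDimensional ℚ K := IsCyclotomicExtension.finiteDimensional {orderOf x} ℚ K
    rw [IsGalois.mem_bot_iff_fixed]
    intro f
    have e1 : IsPrimitiveRoot (f z) (orderOf x) := hz.map_of_injective f.injective
    obtain ⟨k, -, hk, hkz⟩ := (hz.isPrimitiveRoot_iff).mp e1
    apply hφ
    have e2 : f (Polynomial.aeval z (P₁ - P₂)) = Polynomial.aeval (z ^ k) (P₁ - P₂) := by
      rw [hkz]
      exact (Polynomial.aeval_algHom_apply ((f : K →ₐ[ℚ] K).restrictScalars ℤ) z (P₁ - P₂)).symm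
    rw [e2, ← hP k, h k hk]
    have e3 := hP 1
    rw [pow_one, pow_one] at e3
    exact e3
  obtain ⟨q, hq⟩ := IntermediateField.mem_bot.mp hy
  refine ⟨q, ?_⟩
  have e3 := hP 1
  rw [pow_one, pow_one] at e3
  rw [e3, ← hq]
  simp

lemma sum_periods {h : Perm Y} (hd : DC h) :
    ∑ m ∈ Finset.univ.image (fun x => minimalPeriod h x), m = Fintype.card Y := by
  classical
  rw [← Finset.card_univ, Finset.card_eq_sum_card_image (fun x => minimalPeriod h x)]
  refine Finset.sum_congr rfl fun m hm => ?_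
  obtain ⟨x, -, rfl⟩ := Finset.mem_image.mp hm
  have h1 : (Finset.range (minimalPeriod h x)).card
      = (Finset.univ.filter fun y => minimalPeriod h y = minimalPeriod h x).card := by
    refine Finset.card_bij (fun i _ => (h ^ i) x) ?_ ?_ ?_
    · intro i _
      rw [Finset.mem_filter]
      exact ⟨Finset.mem_univ _, per_same (same_of_nat rfl)⟩
    · intro i hi j hj hij
      have h2 := (pow_eq_pow_iff h x i j).mp hij
      have h3 : i ≡ j [MOD (minimalPeriod h x)] := (Int.natCast_modEq_iff).mp h2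
      exact Nat.ModEq.eq_of_lt_of_lt h3 (Finset.mem_range.mp hi) (Finset.mem_range.mp hj)
    · intro y hy
      rw [Finset.mem_filter] at hy
      obtain ⟨k, rfl⟩ := same_nat (hd x y hy.2.symm)
      refine ⟨k % minimalPeriod h x, Finset.mem_range.mpr (Nat.mod_lt _ (per_pos h x)), ?_⟩
      exact (pow_eq_pow_iff h x _ _).mpr (by exact_mod_cast Nat.mod_modEq k _)
  rw [← h1, Finset.card_range]

/-- **Rationality.** -/
theorem pow_eq (A : AI G Y) {τ : Perm Y} (hτ : Perm.sign τ = -1) {χ₁ χ₂ : G → ℂ}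
    (h₁ : χ₁ ∈ AddSubmonoid.closure (Irr G)) (h₂ : χ₂ ∈ AddSubmonoid.closure (Irr G))
    (hC : ∀ P : Finset ℕ, (∀ m ∈ P, Odd m) → ∑ m ∈ P, m = Fintype.card Y →
      ∃ C : Cmp Y P, ¬ IsSquare (∏ m ∈ P, m) → pr (χ₁ - χ₂) (A.kap C.g) = 0)
    (x : G) (k : ℕ) (hk : k.Coprime (orderOf x)) :
    (χ₁ - χ₂) (x ^ k) = (χ₁ - χ₂) x := by
  classical
  have hle : AddSubmonoid.closure (Irr G) ≤ (AddSubgroup.closure (Irr G)).toAddSubmonoid := by
    rw [AddSubmonoid.closure_le]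
    exact AddSubgroup.subset_closure
  have hv : Virt (χ₁ - χ₂) := sub_mem (S := AddSubgroup (G → ℂ)) (hle h₁) (hle h₂)
  set f := χ₁ - χ₂ with hf
  have hcl := hv.conj
  obtain ⟨t, ht⟩ := pow_conj (A.ι x) (k := k) (by rwa [orderOf_injective A.ι A.inj])
  have ht' : t * A.ι x * t⁻¹ = A.ι (x ^ k) := by rw [ht, map_pow]
  rcases Int.units_eq_one_or (Perm.sign t) with hst | hst
  · exact A.cls hcl hst ht'
  by_cases hsp : Split (A.ι x)
  swap
  · unfold Split at hsp
    push Not at hsp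
    obtain ⟨c, hc, hs⟩ := hsp
    have hs' := (Int.units_eq_one_or (Perm.sign c)).resolve_left hs
    refine A.cls hcl (a := t * c) (by rw [map_mul, hst, hs']; decide) ?_
    have : t * c * A.ι x * (t * c)⁻¹ = t * (c * A.ι x) * c⁻¹ * t⁻¹ := by group
    rw [this, hc, ← ht']
    group
  obtain ⟨hodd, hdc⟩ := split_facts hsp
  let P : Finset ℕ := Finset.univ.image (fun y => minimalPeriod (A.ι x) y)
  have hPm : ∀ m, m ∈ P ↔ ∃ y, minimalPeriod (A.ι x) y = m := by
    intro m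
    simp [P]
  obtain ⟨C, hC0⟩ := hC P (fun m hm => by
    obtain ⟨y, rfl⟩ := (hPm m).mp hm
    exact hodd y) (sum_periods hdc)
  obtain ⟨s, hs⟩ := conj_of_dc C.dc hdc (fun m => by rw [C.per m, hPm])
  obtain ⟨γ, hγ⟩ := A.el C.split 1
  obtain ⟨γ', hγ'⟩ := A.el C.split τ
  have hγ1 : A.ι γ = C.g := by rw [hγ]; group
  -- the difference
  have hdiff : f x - f (x ^ k) = ((Perm.sign s : ℤ) : ℂ) * (f γ - f γ') := by
    rcases Int.units_eq_one_or (Perm.sign s) with h | h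
    · have e1 : f x = f γ := A.cls hcl (a := s) h (by rw [hγ1, hs])
      have e2 : f (x ^ k) = f γ' := A.cls hcl (a := t * s * τ⁻¹) (by
        rw [map_mul, map_mul, map_inv, hst, h, hτ]
        decide) (by
        rw [hγ', ← ht', ← hs]
        group)
      rw [e1, e2, h]
      simp
    · have e1 : f x = f γ' := A.cls hcl (a := s * τ⁻¹) (by
        rw [map_mul, map_inv, h, hτ]
        decide) (by
        rw [hγ', ← hs]
        group)
      have e2 : f (x ^ k) = f γ := A.cls hcl (a := t * s) (by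
        rw [map_mul, hst, h]
        decide) (by
        rw [hγ1, ← ht', ← hs]
        group)
      rw [e1, e2, h]
      simp
  by_cases hsq : IsSquare (∏ m ∈ P, m)
  swap
  · have h0 := hC0 hsq
    rw [A.pr_kap C.split hτ hγ1 hγ' hcl] at h0
    rw [h0, mul_zero] at hdiff
    exact (sub_eq_zero.mp hdiff).symm
  -- the product is a square
  obtain ⟨I⟩ := exists_img A C
  obtain ⟨r, hr⟩ := I.exists_r hτ hγ1 hγ' hv
  obtain ⟨a, ha⟩ := hsq
  have haodd : Odd a := by
    have := C.odd_prod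
    rw [ha] at this
    exact (Nat.odd_mul.mp this).1
  have hD : I.D = a ∨ I.D = -a := by
    have h3 := I.D_sq
    rw [ha] at h3
    have h4 : ZMod.χ₄ ((a * a : ℕ) : ZMod 4) = 1 := by
      rw [Nat.cast_mul, map_mul, ← pow_two]
      exact chi_sq haodd
    rw [h4] at h3
    push_cast at h3
    rw [one_mul, ← pow_two] at h3
    exact sq_eq_sq_iff_eq_or_eq_neg.mp h3
  have hq : ∃ q : ℚ, f x - f (x ^ k) = q := by
    rw [hdiff, hr]
    rcases hD with h | h
    · exact ⟨(Perm.sign s : ℤ) * (r * a), by rw [h]; push_cast; ring⟩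
    · exact ⟨(Perm.sign s : ℤ) * (r * -a), by rw [h]; push_cast; ring⟩
  obtain ⟨u, hu⟩ := A.exists_lift ((MulAut.conj τ).toMonoidHom.comp A.ι) (fun w => by
    change Perm.sign (τ * A.ι w * τ⁻¹) = 1
    rw [map_mul, map_mul, A.even, mul_one, map_inv, mul_inv_cancel])
  have hu' : ∀ x, A.ι (u x) = τ * A.ι x * τ⁻¹ := hu
  have e3 : f (u x) = f (x ^ k) := (A.cls hcl (a := t * τ⁻¹) (x := u x) (y := x ^ k) (by
    rw [map_mul, map_inv, hst, hτ]
    decide) (by
    rw [hu', ← ht']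
    group)).symm
  have e4 : f (u (x ^ k)) = f x := A.cls hcl (a := τ * t) (by
    rw [map_mul, hst, hτ]
    decide) (by
    rw [hu', ← ht']
    group)
  have hpull : ∀ {χ : G → ℂ}, χ ∈ AddSubmonoid.closure (Irr G) →
      (fun y => χ (u y)) ∈ AddSubmonoid.closure (Irr G) := by
    intro χ hχ
    induction hχ using AddSubmonoid.closure_induction with
    | mem χ hχ =>
      obtain ⟨n, ρ, -, rfl⟩ := hχ
      exact char_memP _ (ρ.comp u) rfl
    | zero => exact zero_mem _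
    | add a b _ _ ha hb => exact add_mem ha hb
  have hH1 := Pool.Agent.K4H77.SL.heil_of_closure' (add_mem h₁ (hpull h₂))
  have hH2 := Pool.Agent.K4H77.SL.heil_of_closure' (add_mem h₂ (hpull h₁))
  have hval : ∀ y, (χ₁ + fun y => χ₂ (u y)) y - (χ₂ + fun y => χ₁ (u y)) y = f y - f (u y) := by
    intro y
    simp only [hf, Pi.add_apply, Pi.sub_apply]
    ring
  obtain ⟨z, hz⟩ := Pool.Agent.K4H77.SL.rat_int hH1 hH2 x (by
    rw [hval, e3]
    exact hq)
  have h5 := hz x rfl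
  have h6 := hz (x ^ k) (by
    apply le_antisymm
    · rw [Subgroup.zpowers_le]
      exact Subgroup.npow_mem_zpowers x k
    · rw [Subgroup.zpowers_le]
      obtain ⟨m, hm⟩ := exists_pow_eq_self_of_coprime hk
      have h8 := Subgroup.npow_mem_zpowers (x ^ k) m
      rwa [hm] at h8)
  rw [hval, e3] at h5
  rw [hval, e4] at h6
  have h7 : f x - f (x ^ k) = f (x ^ k) - f x := h5.trans h6.symm
  linear_combination (-1 / 2 : ℂ) * h7

end

end Run7.h200.SP
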