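import Pool.Agent.Run7.h200.SP.Wr

/-!
# One cycle
-/

set_option autoImplicit false
set_option linter.unusedSectionVars false

open Equiv Function

namespace Run7.h200.SP

section eps

variable {X : Type} [Fintype X] [DecidableEq X] {p : ℕ}

lemma wr_conj_base (f : X → ZMod p) (g s : Perm X) :
    wr f (s * g * s⁻¹) = wr (fun _ => 0) s * wr (fun x => f (s x)) g * (wr (fun _ => 0) s)⁻¹ := by
  rw [eq_mul_inv_iff_mul_eq, wr_mul, wr_mul]
  congr 1
  · funext x
    rw [zero_add, add_zero]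
  · group

lemma wr_conj_cob {u f1 f2 : X → ZMod p} {w : Perm X} (h : ∀ x, u (w x) = u x + (f2 x - f1 x)) :
    wr f2 w = wr u 1 * wr f1 w * (wr u 1)⁻¹ := by
  rw [eq_mul_inv_iff_mul_eq, wr_mul, wr_mul]
  congr 1
  funext x
  rw [h, Perm.one_apply]
  ring

lemma wr_conj_mf (e : (ZMod p)ˣ) (f : X → ZMod p) (w : Perm X) :
    wr (fun x => (e : ZMod p) * f x) w = mf X e * wr f w * (mf X e)⁻¹ := by
  rw [eq_mul_inv_iff_mul_eq]
  refine Equiv.ext fun y => ?_
  change (w y.1, (e : ZMod p) * y.2 + e * f y.1) = (w y.1, (e : ZMod p) * (y.2 + f y.1))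
  rw [mul_add]

variable [Fact p.Prime]

lemma exists_conj_wr (hp : p ≠ 2) (hX : Odd (Fintype.card X)) {g : Perm X} (hg : Trans g)
    {f0 f : X → ZMod p} (h0 : ∑ y, f0 y = 1) {e : (ZMod p)ˣ} (he : ∑ y, f y = e) (s : Perm X) :
    ∃ t : Perm (X × ZMod p), t * wr f0 g * t⁻¹ = wr f (s * g * s⁻¹) ∧
      Perm.sign t = Perm.sign s * Perm.sign (Units.mulLeft e) := by
  have h1 : ∑ y, (f (s y) - (e : ZMod p) * f0 y) = 0 := by
    rw [Finset.sum_sub_distrib, ← Finset.mul_sum, h0, Equiv.sum_comp s f, he]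
    ring
  obtain ⟨u, hu⟩ := exists_cob hg _ h1
  refine ⟨wr (fun _ => 0) s * wr u 1 * mf X e, ?_, ?_⟩
  · rw [wr_conj_base, wr_conj_cob hu, wr_conj_mf]
    group
  · rw [map_mul, map_mul, sign_base hp, sign_shift hp, sign_mf hX, mul_one]

lemma eps_wr (hp : p ≠ 2) (hX : Odd (Fintype.card X)) {g : Perm X} (hg : Trans g)
    {f0 : X → ZMod p} (h0 : ∑ y, f0 y = 1) (f : X → ZMod p) (w : Perm X) :
    eps (wr f0 g) (wr f w) = eps g w * ((quadraticChar (ZMod p) (∑ y, f y) : ℤ) : ℂ) := by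
  have hne : Nonempty X := Fintype.card_pos_iff.mp hX.pos
  have hpodd := (Fact.out : p.Prime).odd_of_ne_two hp
  have hgw : Trans (wr f0 g) := (trans_wr_iff hg f0).mpr (by rw [h0]; exact one_ne_zero)
  have hsp : Split (wr f0 g) := split_trans hgw (by
    rw [Fintype.card_prod, ZMod.card]
    exact hX.mul hpodd)
  by_cases hw : Trans w
  · by_cases hf : ∑ y, f y = 0
    · rw [hf, MulChar.map_zero, Int.cast_zero, mul_zero]
      refine eps_zero ?_
      rintro ⟨t, ht⟩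
      have h1 := hgw.conj t
      rw [ht, trans_wr_iff hw] at h1
      exact h1 hf
    · obtain ⟨s, rfl⟩ := conj_trans hg hw
      obtain ⟨t, ht, hts⟩ := exists_conj_wr hp hX hg h0 (f := f) (e := Units.mk0 _ hf) rfl s
      rw [← ht, eps_conj hsp, eps_conj (split_trans hg hX), hts]
      have h2 := sign_mulLeft hp (Units.mk0 _ hf)
      rw [Units.val_mk0] at h2
      rw [← h2]
      push_cast
      rfl
  · have h1 : eps g w = 0 := by
      refine eps_zero ?_
      rintro ⟨t, rfl⟩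
      exact hw (hg.conj t)
    rw [h1, zero_mul]
    refine eps_zero ?_
    rintro ⟨t, ht⟩
    have h2 := hgw.conj t
    rw [ht] at h2
    exact hw (trans_fst h2)

end eps

/-- the wreath product -/
structure WrG {W X : Type} [Group W] (p : ℕ) (φ : W →* Perm X) where
  /-- the base -/
  w : W
  /-- the fibre -/
  f : X → ZMod p

namespace WrG

variable {W X : Type} [Group W] {p : ℕ} {φ : W →* Perm X}

@[ext] lemma ext' {a b : WrG p φ} (h1 : a.w = b.w) (h2 : a.f = b.f) : a = b := by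
  cases a
  cases b
  subst h1 h2
  rfl

instance : Mul (WrG p φ) := ⟨fun a b => ⟨a.w * b.w, fun x => b.f x + a.f (φ b.w x)⟩⟩
instance : One (WrG p φ) := ⟨⟨1, fun _ => 0⟩⟩
instance : Inv (WrG p φ) := ⟨fun a => ⟨a.w⁻¹, fun x => -a.f ((φ a.w)⁻¹ x)⟩⟩

lemma mul_def (a b : WrG p φ) : a * b = ⟨a.w * b.w, fun x => b.f x + a.f (φ b.w x)⟩ := rfl
lemma one_def : (1 : WrG p φ) = ⟨1, fun _ => 0⟩ := rfl
lemma inv_def (a : WrG p φ) : a⁻¹ = ⟨a.w⁻¹, fun x => -a.f ((φ a.w)⁻¹ x)⟩ := rfl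

instance : Group (WrG p φ) := Group.ofLeftAxioms
  (by
    intro a b c
    rw [mul_def, mul_def, mul_def, mul_def]
    refine WrG.ext' (mul_assoc _ _ _) ?_
    funext x
    change c.f x + (b.f (φ c.w x) + a.f (φ b.w (φ c.w x))) = (c.f x + b.f (φ c.w x)) + a.f (φ (b.w * c.w) x)
    rw [map_mul, Perm.mul_apply, add_assoc])
  (by
    intro a
    rw [mul_def, one_def]
    refine WrG.ext' (one_mul _) ?_
    funext x
    exact add_zero _)
  (by
    intro a
    rw [mul_def, inv_def, one_def]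
    refine WrG.ext' (inv_mul_cancel _) ?_
    funext x
    change a.f x + -a.f ((φ a.w).symm (φ a.w x)) = 0
    rw [Equiv.symm_apply_apply, add_neg_cancel])

/-- the elements -/
def eqv (p : ℕ) (φ : W →* Perm X) : WrG p φ ≃ W × (X → ZMod p) where
  toFun a := (a.w, a.f)
  invFun a := ⟨a.1, a.2⟩
  left_inv _ := rfl
  right_inv _ := rfl

/-- the action -/
def hom [Fintype X] [DecidableEq X] (p : ℕ) (φ : W →* Perm X) : WrG p φ →* Perm (X × ZMod p) where
  toFun a := wr a.f (φ a.w)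
  map_one' := by
    rw [one_def]
    change wr (fun _ => 0) (φ 1) = 1
    rw [map_one, wr_one]
  map_mul' a b := by
    rw [wr_mul, mul_def]
    change wr _ (φ (a.w * b.w)) = _
    rw [map_mul]

/-- the linear character -/
noncomputable def chr [Fintype X] (φ : W →* Perm X) (lam : W →* ℂˣ)
    (ψ : Multiplicative (ZMod p) →* ℂˣ) : WrG p φ →* ℂˣ where
  toFun a := lam a.w * ψ (Multiplicative.ofAdd (∑ x, a.f x))
  map_one' := by
    rw [one_def]
    change lam 1 * ψ (Multiplicative.ofAdd (∑ x : X, 0)) = 1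
    rw [Finset.sum_const_zero, ofAdd_zero, map_one, map_one, one_mul]
  map_mul' a b := by
    rw [mul_def]
    change lam (a.w * b.w) * ψ (Multiplicative.ofAdd (∑ x, (b.f x + a.f (φ b.w x)))) = _
    rw [Finset.sum_add_distrib, Equiv.sum_comp (φ b.w) a.f, ofAdd_add, map_mul, map_mul]
    change _ = lam a.w * ψ (Multiplicative.ofAdd (∑ x, a.f x)) *
      (lam b.w * ψ (Multiplicative.ofAdd (∑ x, b.f x)))
    rw [mul_comm (ψ (Multiplicative.ofAdd (∑ x, b.f x))), mul_mul_mul_comm]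

end WrG

/-- a group with a linear character for one cycle -/
structure Dat (m : ℕ) where
  /-- the set -/
  X : Type
  [fX : Fintype X]
  [dX : DecidableEq X]
  card : Fintype.card X = m
  /-- the group -/
  W : Type
  [gW : Group W]
  [fW : Fintype W]
  /-- the action -/
  φ : W →* Perm X
  inj : Function.Injective φ
  odd : Odd (Fintype.card W)
  /-- the character -/
  lam : W →* ℂˣ
  ord : ∀ k : ℕ, (∀ q : ℕ, q.Prime → q ∣ m → q ∣ k) → ∀ w, lam w ^ k = 1
  /-- a cycle -/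
  g : Perm X
  tr : Trans g
  P1 : ∀ w, DC (φ w) → Trans (φ w)
  P2 : ((m : ℂ) * ∑ w, eps g (φ w) * ((lam w : ℂˣ) : ℂ)) ^ 2
    = ((ZMod.χ₄ (m : ZMod 4) : ℤ) : ℂ) * m * (Fintype.card W : ℂ) ^ 2

attribute [instance] Dat.fX Dat.dX Dat.gW Dat.fW

lemma sum_fibre {X : Type} [Fintype X] [DecidableEq X] [Nonempty X] {p : ℕ} [Fact p.Prime]
    (F : ZMod p → ℂ) :
    (p : ℂ) * ∑ f : X → ZMod p, F (∑ x, f x) = (p : ℂ) ^ Fintype.card X * ∑ e, F e := by
  obtain ⟨x₀⟩ := ‹Nonempty X›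
  have h1 : ∀ e : ZMod p, ∑ f : X → ZMod p, F (∑ x, f x) = ∑ f : X → ZMod p, F (∑ x, f x + e) := by
    intro e
    rw [← Equiv.sum_comp (Equiv.addRight (Pi.single x₀ e : X → ZMod p))]
    refine Finset.sum_congr rfl fun f _ => ?_
    congr 1
    have h3 : ∀ x, (Equiv.addRight (Pi.single x₀ e : X → ZMod p)) f x
        = f x + (Pi.single x₀ e : X → ZMod p) x := fun x => rfl
    rw [Finset.sum_congr rfl fun x _ => h3 x, Finset.sum_add_distrib]
    simp
  have h2 : (p : ℂ) * ∑ f : X → ZMod p, F (∑ x, f x)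
      = ∑ e : ZMod p, ∑ f : X → ZMod p, F (∑ x, f x + e) := by
    rw [← Finset.sum_congr rfl fun e _ => h1 e, Finset.sum_const, Finset.card_univ, ZMod.card,
      nsmul_eq_mul]
  rw [h2, Finset.sum_comm]
  have h3 : ∀ f : X → ZMod p, ∑ e : ZMod p, F (∑ x, f x + e) = ∑ e, F e := fun f =>
    Equiv.sum_comp (Equiv.addLeft (∑ x, f x)) F
  rw [Finset.sum_congr rfl fun f _ => h3 f, Finset.sum_const, Finset.card_univ, Fintype.card_fun,
    ZMod.card, nsmul_eq_mul]
  push_cast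
  rfl

lemma gauss_sq {p : ℕ} [Fact p.Prime] (hp : p ≠ 2) (ψ : AddChar (ZMod p) ℂ) (hψ : ψ.IsPrimitive) :
    (∑ e : ZMod p, ((quadraticChar (ZMod p) e : ℤ) : ℂ) * ψ e) ^ 2
      = ((ZMod.χ₄ (p : ZMod 4) : ℤ) : ℂ) * p := by
  have h2 : ringChar (ZMod p) ≠ 2 := by rw [ZMod.ringChar_zmod_n]; exact hp
  have h1 := gaussSum_sq (χ := (quadraticChar (ZMod p)).ringHomComp (Int.castRingHom ℂ))
    (MulChar.ringHomComp_ne_one_iff Int.cast_injective |>.mpr (quadraticChar_ne_one h2))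
    ((quadraticChar_isQuadratic (ZMod p)).comp _) hψ
  rw [gaussSum] at h1
  refine h1.trans ?_
  rw [ZMod.card, MulChar.ringHomComp_apply, quadraticChar_neg_one h2, ZMod.card]
  rfl

/-- the step of the induction -/
theorem Dat.step {m : ℕ} (D : Dat m) (hm : Odd m) {p : ℕ} [Fact p.Prime] (hp : p ≠ 2) :
    Nonempty (Dat (p * m)) := by
  classical
  have hX : Odd (Fintype.card D.X) := by rw [D.card]; exact hm
  have hne : Nonempty D.X := Fintype.card_pos_iff.mp hX.pos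
  have hpodd := (Fact.out : p.Prime).odd_of_ne_two hp
  let ψ : AddChar (ZMod p) ℂ := ZMod.stdAddChar
  have hψ : ψ.IsPrimitive := ZMod.isPrimitive_stdAddChar p
  let ψu : Multiplicative (ZMod p) →* ℂˣ := ψ.toMonoidHom.toHomUnits
  have hψu : ∀ e : ZMod p, ((ψu (Multiplicative.ofAdd e) : ℂˣ) : ℂ) = ψ e := fun e => rfl
  let f0 : D.X → ZMod p := Pi.single (Classical.arbitrary D.X) 1
  have hf0 : ∑ y, f0 y = 1 := by simp [f0]
  let e := WrG.eqv p D.φ
  have fW : Fintype (WrG p D.φ) := Fintype.ofEquiv _ e.symm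
  have hcW : Fintype.card (WrG p D.φ) = Fintype.card D.W * p ^ m := by
    rw [Fintype.card_congr e, Fintype.card_prod, Fintype.card_fun, ZMod.card, D.card]
  refine ⟨{ X := D.X × ZMod p, W := WrG p D.φ, φ := WrG.hom p D.φ,
            lam := WrG.chr D.φ D.lam ψu, g := wr f0 D.g, card := ?_, inj := ?_, odd := ?_,
            ord := ?_, tr := ?_, P1 := ?_, P2 := ?_ }⟩
  · rw [Fintype.card_prod, ZMod.card, D.card, mul_comm]
  · intro a b hab
    have h1 : ∀ y : D.X × ZMod p, (D.φ a.w y.1, y.2 + a.f y.1) = (D.φ b.w y.1, y.2 + b.f y.1) := by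
      intro y
      exact congrArg (fun t : Perm (D.X × ZMod p) => t y) hab
    refine WrG.ext' (D.inj (Equiv.ext fun x => ?_)) (funext fun x => ?_)
    · exact congrArg Prod.fst (h1 (x, 0))
    · simpa using congrArg Prod.snd (h1 (x, 0))
  · rw [hcW]
    exact D.odd.mul hpodd.pow
  · intro k hk w
    change (D.lam w.w * ψu (Multiplicative.ofAdd (∑ x, w.f x))) ^ k = 1
    rw [mul_pow, D.ord k (fun q hq hqm => hk q hq (hqm.mul_left p)), one_mul, ← map_pow]
    obtain ⟨c, rfl⟩ := hk p Fact.out (dvd_mul_right p m)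
    rw [pow_mul, ← ofAdd_nsmul]
    have h1 : p • (∑ x, w.f x) = 0 := by simp
    rw [h1, ofAdd_zero, one_pow, map_one]
  · exact (trans_wr_iff D.tr f0).mpr (by rw [hf0]; exact one_ne_zero)
  · intro w hw
    exact wr_dc_trans (D.P1 w.w) hw
  · have hS : (p : ℂ) * ∑ w : WrG p D.φ, eps (wr f0 D.g) (WrG.hom p D.φ w) *
        ((WrG.chr D.φ D.lam ψu w : ℂˣ) : ℂ) =
        (∑ w, eps D.g (D.φ w) * ((D.lam w : ℂˣ) : ℂ)) * ((p : ℂ) ^ m *
          ∑ e : ZMod p, ((quadraticChar (ZMod p) e : ℤ) : ℂ) * ψ e) := by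
      rw [← Equiv.sum_comp e.symm, Fintype.sum_prod_type]
      have h1 : ∀ w : D.W, ∑ f : D.X → ZMod p, eps (wr f0 D.g) (WrG.hom p D.φ (e.symm (w, f))) *
          ((WrG.chr D.φ D.lam ψu (e.symm (w, f)) : ℂˣ) : ℂ) =
          (eps D.g (D.φ w) * ((D.lam w : ℂˣ) : ℂ)) * ∑ f : D.X → ZMod p,
            (((quadraticChar (ZMod p) (∑ x, f x) : ℤ) : ℂ) * ψ (∑ x, f x)) := by
        intro w
        rw [Finset.mul_sum]
        refine Finset.sum_congr rfl fun f _ => ?_
        change eps (wr f0 D.g) (wr f (D.φ w)) *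
          ((D.lam w * ψu (Multiplicative.ofAdd (∑ x, f x)) : ℂˣ) : ℂ) = _
        rw [eps_wr hp hX D.tr hf0, Units.val_mul, hψu]
        ring
      rw [Finset.sum_congr rfl fun w _ => h1 w, ← Finset.sum_mul, mul_left_comm]
      congr 1
      have h2 := sum_fibre (X := D.X) (p := p)
        (fun e => ((quadraticChar (ZMod p) e : ℤ) : ℂ) * ψ e)
      rw [D.card] at h2
      exact h2
    have h3 : ((p * m : ℕ) : ℂ) * ∑ w : WrG p D.φ, eps (wr f0 D.g) (WrG.hom p D.φ w) *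
        ((WrG.chr D.φ D.lam ψu w : ℂˣ) : ℂ) =
        ((m : ℂ) * ∑ w, eps D.g (D.φ w) * ((D.lam w : ℂˣ) : ℂ)) * ((p : ℂ) ^ m *
          ∑ e : ZMod p, ((quadraticChar (ZMod p) e : ℤ) : ℂ) * ψ e) := by
      push_cast
      rw [mul_comm (p : ℂ) (m : ℂ), mul_assoc, hS]
      ring
    rw [h3, mul_pow, D.P2, mul_pow, gauss_sq hp ψ hψ, hcW]
    have h4 : ZMod.χ₄ ((p * m : ℕ) : ZMod 4) = ZMod.χ₄ (p : ZMod 4) * ZMod.χ₄ (m : ZMod 4) := by
      rw [Nat.cast_mul, map_mul]
    rw [h4]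
    push_cast
    ring

/-- the trivial case -/
lemma Dat.base : Nonempty (Dat 1) := by
  classical
  refine ⟨{ X := Unit, W := Unit, φ := 1, lam := 1, g := 1, card := rfl,
            inj := fun _ _ _ => rfl, odd := by simp, ord := ?_, tr := ?_, P1 := ?_, P2 := ?_ }⟩
  · intro k _ w
    simp
  · intro x y
    exact ⟨0, rfl⟩
  · intro w _ x y
    exact ⟨0, rfl⟩
  · have h1 : eps (1 : Perm Unit) 1 = 1 := by
      have h2 := eps_conj (g := (1 : Perm Unit)) (fun t _ => by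
        rw [Subsingleton.elim t 1, map_one]) 1
      simpa using h2
    have h3 : ZMod.χ₄ ((1 : ℕ) : ZMod 4) = 1 := by simp
    rw [h3]
    simp [h1]

theorem exists_dat (m : ℕ) (hm : Odd m) : Nonempty (Dat m) := by
  induction m using induction_on_primes with
  | zero => exact absurd hm (by decide)
  | one => exact Dat.base
  | prime_mul p a hp ih =>
    have := Fact.mk hp
    have h1 := Nat.odd_mul.mp hm
    obtain ⟨D⟩ := ih h1.2
    refine D.step h1.2 ?_
    rintro rfl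
    exact absurd h1.1 (by decide)

end Run7.h200.SP
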