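import Pool.Agent.Run7.h200.SP.One

/-!
# Several cycles
-/

set_option autoImplicit false
set_option linter.unusedSectionVars false

open Equiv Function

namespace Run7.h200.SP

section sg

variable {ι : Type} [Fintype ι] [DecidableEq ι] {X : ι → Type} [∀ i, Fintype (X i)]
  [∀ i, DecidableEq (X i)]

/-- the permutation of the disjoint union -/
abbrev sg (σ : ∀ i, Perm (X i)) : Perm (Σ i, X i) := Perm.sigmaCongrRightHom X σ

lemma sg_apply (σ : ∀ i, Perm (X i)) (i : ι) (x : X i) : sg σ ⟨i, x⟩ = ⟨i, σ i x⟩ := rfl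

lemma sg_pow (σ : ∀ i, Perm (X i)) (k : ℕ) : (sg σ) ^ k = sg (fun i => σ i ^ k) :=
  (map_pow (Perm.sigmaCongrRightHom X) σ k).symm

lemma sg_zpow (σ : ∀ i, Perm (X i)) (k : ℤ) : (sg σ) ^ k = sg (fun i => σ i ^ k) :=
  (map_zpow (Perm.sigmaCongrRightHom X) σ k).symm

lemma sg_conj (σ t : ∀ i, Perm (X i)) :
    sg t * sg σ * (sg t)⁻¹ = sg (fun i => t i * σ i * (t i)⁻¹) := by
  rw [← map_mul, ← map_inv, ← map_mul]
  rfl

lemma sg_eq_mk {i : ι} {x y : X i} : (⟨i, x⟩ : Σ i, X i) = ⟨i, y⟩ ↔ x = y :=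
  sigma_mk_injective.eq_iff

lemma per_sg (σ : ∀ i, Perm (X i)) (i : ι) (x : X i) :
    minimalPeriod (sg σ) (⟨i, x⟩ : Σ i, X i) = minimalPeriod (σ i) x := by
  rw [minimalPeriod_eq_minimalPeriod_iff]
  intro n
  change ((sg σ : Perm (Σ i, X i)) : (Σ i, X i) → Σ i, X i)^[n] ⟨i, x⟩ = ⟨i, x⟩ ↔
    (σ i : X i → X i)^[n] x = x
  rw [coe_iter, coe_iter, sg_pow, sg_apply, sg_eq_mk]

lemma same_sg {σ : ∀ i, Perm (X i)} {i : ι} {x y : X i} :
    (sg σ).SameCycle (⟨i, x⟩ : Σ i, X i) ⟨i, y⟩ ↔ (σ i).SameCycle x y := by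
  constructor
  · rintro ⟨k, hk⟩
    rw [sg_zpow, sg_apply, sg_eq_mk] at hk
    exact ⟨k, hk⟩
  · rintro ⟨k, hk⟩
    exact ⟨k, by rw [sg_zpow, sg_apply, sg_eq_mk]; exact hk⟩

lemma sign_sg (σ : ∀ i, Perm (X i)) : Perm.sign (sg σ) = ∏ i, Perm.sign (σ i) := by
  let a : (∀ i, Perm (X i)) →* ℤˣ := Perm.sign.comp (Perm.sigmaCongrRightHom X)
  let b : (∀ i, Perm (X i)) →* ℤˣ := ∏ i, Perm.sign.comp (Pi.evalMonoidHom (fun i => Perm (X i)) i)
  have hb : ∀ σ, b σ = ∏ i, Perm.sign (σ i) := by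
    intro σ
    change (∏ i, Perm.sign.comp (Pi.evalMonoidHom (fun i => Perm (X i)) i)) σ = _
    rw [MonoidHom.finsetProd_apply]
    rfl
  have hab : a = b := by
    refine MonoidHom.pi_ext fun i τ => ?_
    have hbs : b (Pi.mulSingle i τ) = Perm.sign τ := by
      rw [hb, Finset.prod_eq_single i]
      · rw [Pi.mulSingle_eq_same]
      · intro j _ hj
        rw [Pi.mulSingle_eq_of_ne hj, map_one]
      · intro h
        exact absurd (Finset.mem_univ i) h
    rw [hbs]
    induction τ using Equiv.Perm.swap_induction_on with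
    | one => rw [Pi.mulSingle_one, map_one, map_one]
    | swap_mul f x y hxy ih =>
      have hb2 : ∀ τ, b (Pi.mulSingle i τ) = Perm.sign τ := by
        intro τ
        rw [hb, Finset.prod_eq_single i]
        · rw [Pi.mulSingle_eq_same]
        · intro j _ hj
          rw [Pi.mulSingle_eq_of_ne hj, map_one]
        · intro h
          exact absurd (Finset.mem_univ i) h
      rw [Pi.mulSingle_mul, map_mul, map_mul, ih (hb2 f)]
      congr 1
      rw [Perm.sign_swap hxy]
      change Perm.sign (sg (Pi.mulSingle i (swap x y))) = -1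
      have h1 : sg (Pi.mulSingle i (swap x y)) = swap (⟨i, x⟩ : Σ i, X i) ⟨i, y⟩ := by
        refine Equiv.ext ?_
        rintro ⟨j, z⟩
        rw [sg_apply]
        by_cases hj : j = i
        · subst hj
          rw [Pi.mulSingle_eq_same]
          by_cases h2 : z = x
          · subst h2
            rw [swap_apply_left, swap_apply_left]
          · by_cases h3 : z = y
            · subst h3
              rw [swap_apply_right, swap_apply_right]
            · rw [swap_apply_of_ne_of_ne h2 h3, swap_apply_of_ne_of_ne]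
              · exact fun h => h2 (sg_eq_mk.mp h)
              · exact fun h => h3 (sg_eq_mk.mp h)
        · rw [Pi.mulSingle_eq_of_ne hj, swap_apply_of_ne_of_ne]
          · rfl
          · exact fun h => hj (congrArg Sigma.fst h)
          · exact fun h => hj (congrArg Sigma.fst h)
      rw [h1]
      exact Perm.sign_swap (fun h => hxy (sg_eq_mk.mp h))
  rw [← hb, ← hab]
  rfl

lemma dc_of_sg {σ : ∀ i, Perm (X i)} (h : DC (sg σ)) (i : ι) : DC (σ i) := by
  intro x y hxy
  exact same_sg.mp (h ⟨i, x⟩ ⟨i, y⟩ (by rw [per_sg, per_sg, hxy]))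

/-- the cardinalities are different -/
def Diff (X : ι → Type) [∀ i, Fintype (X i)] : Prop :=
  ∀ i j, Fintype.card (X i) = Fintype.card (X j) → i = j

lemma dc_sg (hX : Diff X) {g : ∀ i, Perm (X i)} (hg : ∀ i, Trans (g i)) : DC (sg g) := by
  rintro ⟨i, x⟩ ⟨j, y⟩ h
  rw [per_sg, per_sg, per_trans (hg i), per_trans (hg j)] at h
  obtain rfl := hX i j h
  exact same_sg.mpr (hg i x y)

lemma comm_sg (hX : Diff X) (hne : ∀ i, Nonempty (X i)) {g : ∀ i, Perm (X i)}
    (hg : ∀ i, Trans (g i)) {t : Perm (Σ i, X i)} (ht : t * sg g = sg g * t) :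
    ∃ k : ι → ℤ, t = sg (fun i => g i ^ k i) := by
  have h1 : ∀ i, ∃ (x : X i) (k : ℤ), t ⟨i, x⟩ = ⟨i, (g i ^ k) x⟩ := by
    intro i
    obtain ⟨x⟩ := hne i
    refine ⟨x, ?_⟩
    have h2 := per_of_comm ht ⟨i, x⟩
    rcases hy : t ⟨i, x⟩ with ⟨j, z⟩
    rw [hy, per_sg, per_sg, per_trans (hg i), per_trans (hg j)] at h2
    obtain rfl := hX _ _ h2
    obtain ⟨k, hk⟩ := hg _ x z
    exact ⟨k, by rw [hk]⟩
  choose x k hk using h1
  refine ⟨k, Equiv.ext ?_⟩
  rintro ⟨i, y⟩
  obtain ⟨j, rfl⟩ := hg i (x i) y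
  have h2 : Commute t ((sg g) ^ j) := (show Commute t (sg g) from ht).zpow_right j
  have h3 : (⟨i, (g i ^ j) (x i)⟩ : Σ i, X i) = ((sg g) ^ j) ⟨i, x i⟩ := by
    rw [sg_zpow, sg_apply]
  rw [h3, ← Perm.mul_apply, h2.eq, Perm.mul_apply, hk, sg_zpow, sg_apply, sg_apply, sg_apply,
    ← Perm.mul_apply, ← Perm.mul_apply, ← zpow_add, ← zpow_add, add_comm]

lemma split_sg (hX : Diff X) (ho : ∀ i, Odd (Fintype.card (X i))) {g : ∀ i, Perm (X i)}
    (hg : ∀ i, Trans (g i)) : Split (sg g) := by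
  intro t ht
  obtain ⟨k, rfl⟩ := comm_sg hX (fun i => Fintype.card_pos_iff.mp (ho i).pos) hg ht
  rw [sign_sg]
  refine Finset.prod_eq_one fun i _ => ?_
  rw [map_zpow, sign_trans (hg i) (ho i), one_zpow]

lemma card_cent_sg (hX : Diff X) (ho : ∀ i, Odd (Fintype.card (X i))) {g : ∀ i, Perm (X i)}
    (hg : ∀ i, Trans (g i)) :
    Nat.card {t : Perm (Σ i, X i) // t * sg g = sg g * t} = ∏ i, Fintype.card (X i) := by
  let F : (∀ i, Subgroup.zpowers (g i)) → {t : Perm (Σ i, X i) // t * sg g = sg g * t} :=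
    fun s => ⟨sg (fun i => (s i : Perm (X i))), by
      rw [← map_mul, ← map_mul]
      congr 1
      funext i
      obtain ⟨k, hk⟩ := (s i).2
      change (s i : Perm (X i)) * g i = g i * s i
      rw [← hk]
      exact ((Commute.refl (g i)).zpow_left k)⟩
  have hF : Function.Bijective F := by
    constructor
    · intro s s' h
      have h1 := Perm.sigmaCongrRightHom_injective (congrArg Subtype.val h)
      funext i
      exact Subtype.ext (congrFun h1 i)
    · rintro ⟨t, ht⟩
      obtain ⟨k, rfl⟩ := comm_sg hX (fun i => Fintype.card_pos_iff.mp (ho i).pos) hg ht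
      exact ⟨fun i => ⟨g i ^ k i, k i, rfl⟩, rfl⟩
  rw [← Nat.card_eq_of_bijective F hF, Nat.card_pi]
  refine Finset.prod_congr rfl fun i _ => ?_
  rw [Nat.card_zpowers, orderOf_trans (hg i) (ho i).pos]

lemma eps_sg (hX : Diff X) (ho : ∀ i, Odd (Fintype.card (X i))) {g : ∀ i, Perm (X i)}
    (hg : ∀ i, Trans (g i)) (σ : ∀ i, Perm (X i)) (hσ : ∀ i, DC (σ i) → Trans (σ i)) :
    eps (sg g) (sg σ) = ∏ i, eps (g i) (σ i) := by
  by_cases h : ∀ i, Trans (σ i)
  · have h1 : ∀ i, ∃ t : Perm (X i), t * g i * t⁻¹ = σ i := fun i => conj_trans (hg i) (h i)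
    choose t ht using h1
    have h2 : sg σ = sg t * sg g * (sg t)⁻¹ := by
      rw [sg_conj]
      congr 1
      funext i
      exact (ht i).symm
    rw [h2, eps_conj (split_sg hX ho hg), sign_sg]
    push_cast
    refine Finset.prod_congr rfl fun i _ => ?_
    rw [← ht i, eps_conj (split_trans (hg i) (ho i))]
  · obtain ⟨i, hi⟩ := not_forall.mp h
    rw [Finset.prod_eq_zero (Finset.mem_univ i)]
    · refine eps_zero ?_
      rintro ⟨t, ht⟩
      have h1 := (dc_sg hX hg).conj t
      rw [ht] at h1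
      exact hi (hσ i (dc_of_sg h1 i))
    · refine eps_zero ?_
      rintro ⟨t, ht⟩
      apply hi
      rw [← ht]
      exact (hg i).conj t

end sg

/-- a group with a linear character for a partition into different odd parts -/
structure Cmp (X : Type) [Fintype X] [DecidableEq X] (P : Finset ℕ) where
  /-- the group -/
  W : Type
  [gW : Group W]
  [fW : Fintype W]
  /-- the action -/
  φ : W →* Perm X
  inj : Function.Injective φ
  odd : Odd (Fintype.card W)
  /-- the character -/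
  lam : W →* ℂˣ
  ord : ∀ k : ℕ, (∀ q : ℕ, q.Prime → q ∣ ∏ m ∈ P, m → q ∣ k) → ∀ w, lam w ^ k = 1
  /-- a permutation whose cycles have the lengths in `P` -/
  g : Perm X
  split : Split g
  dc : DC g
  cent : Nat.card {t : Perm X // t * g = g * t} = ∏ m ∈ P, m
  per : ∀ m, (∃ x, minimalPeriod g x = m) ↔ m ∈ P
  P1 : ∀ w, DC (φ w) → ∃ t : Perm X, t * g * t⁻¹ = φ w
  P2 : (((∏ m ∈ P, m : ℕ) : ℂ) * ∑ w, eps g (φ w) * ((lam w : ℂˣ) : ℂ)) ^ 2
    = ((ZMod.χ₄ ((∏ m ∈ P, m : ℕ) : ZMod 4) : ℤ) : ℂ) * ((∏ m ∈ P, m : ℕ) : ℂ) *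
      (Fintype.card W : ℂ) ^ 2

attribute [instance] Cmp.gW Cmp.fW

theorem exists_cmp (P : Finset ℕ) (hP : ∀ m ∈ P, Odd m) :
    ∃ (X : Type) (_ : Fintype X) (_ : DecidableEq X), Fintype.card X = ∑ m ∈ P, m ∧
      Nonempty (Cmp X P) := by
  classical
  have h1 : ∀ i : P, Nonempty (Dat i) := fun i => exists_dat i (hP i i.2)
  let D : ∀ i : P, Dat i := fun i => (h1 i).some
  let Y : P → Type := fun i => (D i).X
  have hcard : ∀ i, Fintype.card (Y i) = i := fun i => (D i).card
  have hX : Diff Y := by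
    intro i j h
    rw [hcard, hcard] at h
    exact Subtype.ext h
  have ho : ∀ i, Odd (Fintype.card (Y i)) := fun i => by
    rw [hcard]
    exact hP i i.2
  have hg : ∀ i, Trans ((D i).g) := fun i => (D i).tr
  have hN : ∏ i : P, Fintype.card (Y i) = ∏ m ∈ P, m := by
    rw [Finset.prod_congr rfl fun i _ => hcard i]
    exact Finset.prod_coe_sort P (fun m => m)
  refine ⟨Σ i, Y i, inferInstance, inferInstance, ?_, ⟨?_⟩⟩
  · rw [Fintype.card_sigma, Finset.sum_congr rfl fun i _ => hcard i]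
    exact Finset.sum_coe_sort P (fun m => m)
  let Φ : (∀ i, (D i).W) →* ∀ i, Perm (Y i) := 
    MonoidHom.pi fun i => (D i).φ.comp (Pi.evalMonoidHom _ i)
  let L : (∀ i, (D i).W) →* ℂˣ := ∏ i, (D i).lam.comp (Pi.evalMonoidHom _ i)
  have hL : ∀ w, L w = ∏ i, (D i).lam (w i) := by
    intro w
    change (∏ i, (D i).lam.comp (Pi.evalMonoidHom _ i)) w = _
    rw [MonoidHom.finsetProd_apply]
    rfl
  have heps : ∀ w : ∀ i, (D i).W, eps (sg fun i => (D i).g) (sg (Φ w))
      = ∏ i, eps (D i).g ((D i).φ (w i)) := fun w => eps_sg hX ho hg _ fun i => (D i).P1 (w i)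
  exact {
    W := ∀ i, (D i).W
    φ := (Perm.sigmaCongrRightHom Y).comp Φ
    inj := by
      intro w w' h
      have h2 := Perm.sigmaCongrRightHom_injective h
      funext i
      exact (D i).inj (congrFun h2 i)
    odd := by
      rw [Fintype.card_pi]
      exact Finset.prod_induction _ Odd (fun _ _ => Odd.mul) odd_one fun i _ => (D i).odd
    lam := L
    ord := by
      intro k hk w
      rw [hL, ← Finset.prod_pow]
      refine Finset.prod_eq_one fun i _ => (D i).ord k (fun q hq hqi => hk q hq ?_) _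
      exact hqi.trans (Finset.dvd_prod_of_mem (fun m => m) i.2)
    g := sg fun i => (D i).g
    split := split_sg hX ho hg
    dc := dc_sg hX hg
    cent := by
      rw [card_cent_sg hX ho hg, hN]
    per := by
      intro m
      constructor
      · rintro ⟨⟨i, x⟩, rfl⟩
        rw [per_sg, per_trans (hg i)]
        change Fintype.card (Y i) ∈ P
        rw [hcard]
        exact i.2
      · intro hm
        obtain ⟨x⟩ : Nonempty (Y ⟨m, hm⟩) := Fintype.card_pos_iff.mp (ho _).pos
        refine ⟨⟨⟨m, hm⟩, x⟩, ?_⟩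
        rw [per_sg, per_trans (hg _)]
        exact hcard ⟨m, hm⟩
    P1 := by
      intro w hw
      have h2 : ∀ i, ∃ t : Perm (Y i), t * (D i).g * t⁻¹ = (D i).φ (w i) := fun i =>
        conj_trans (hg i) ((D i).P1 (w i) (dc_of_sg hw i))
      choose t ht using h2
      refine ⟨sg t, ?_⟩
      rw [sg_conj]
      change sg _ = sg (Φ w)
      congr 1
      funext i
      exact ht i
    P2 := by
      have h2 : ((∏ m ∈ P, m : ℕ) : ℂ) * ∑ w : ∀ i, (D i).W, eps (sg fun i => (D i).g)
          (((Perm.sigmaCongrRightHom Y).comp Φ) w) * ((L w : ℂˣ) : ℂ) =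
          ∏ i : P, (((i : ℕ) : ℂ) * ∑ w, eps (D i).g ((D i).φ w) * (((D i).lam w : ℂˣ) : ℂ)) := by
        rw [Finset.prod_mul_distrib, Finset.prod_univ_sum, Fintype.piFinset_univ]
        congr 1
        · rw [← Finset.prod_coe_sort P (fun m => m)]
          push_cast
          rfl
        · refine Finset.sum_congr rfl fun w _ => ?_
          rw [Finset.prod_mul_distrib]
          congr 1
          · exact heps w
          · rw [hL, Units.coe_prod]
      rw [h2, ← Finset.prod_pow, Finset.prod_congr rfl fun i _ => (D i).P2,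
        Finset.prod_mul_distrib, Finset.prod_mul_distrib, Finset.prod_pow, Fintype.card_pi]
      congr 1
      · congr 1
        · rw [← Finset.prod_coe_sort P (fun m => m)]
          push_cast
          rw [map_prod]
          push_cast
          rfl
        · rw [← Finset.prod_coe_sort P (fun m => m)]
          push_cast
          rfl
      · push_cast
        rfl }

end Run7.h200.SP
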