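import Pool.Agent.Run7.h200.SP.Sig

/-!
# Transport, split permutations, powers
-/

set_option autoImplicit false
set_option linter.unusedSectionVars false

open Equiv Function

namespace Run7.h200.SP

section transport

variable {X Y : Type} [Fintype X] [DecidableEq X] [Fintype Y] [DecidableEq Y] (e : X ≃ Y)

lemma tr_apply (g : Perm X) (x : X) : e.permCongrHom g (e x) = e (g x) := by
  change e (g (e.symm (e x))) = _
  rw [Equiv.symm_apply_apply]

lemma tr_per (g : Perm X) (x : X) :
    minimalPeriod (e.permCongrHom g) (e x) = minimalPeriod g x := by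
  rw [minimalPeriod_eq_minimalPeriod_iff]
  intro n
  change ((e.permCongrHom g : Perm Y) : Y → Y)^[n] (e x) = e x ↔ (g : X → X)^[n] x = x
  rw [coe_iter, coe_iter, ← map_pow, tr_apply, e.injective.eq_iff]

lemma tr_same (g : Perm X) (x y : X) :
    (e.permCongrHom g).SameCycle (e x) (e y) ↔ g.SameCycle x y := by
  constructor
  · rintro ⟨k, hk⟩
    rw [← map_zpow, tr_apply, e.injective.eq_iff] at hk
    exact ⟨k, hk⟩
  · rintro ⟨k, hk⟩
    exact ⟨k, by rw [← map_zpow, tr_apply, hk]⟩

lemma tr_dc (g : Perm X) : DC (e.permCongrHom g) ↔ DC g := by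
  constructor
  · intro h x y hxy
    exact (tr_same e g x y).mp (h _ _ (by rw [tr_per, tr_per, hxy]))
  · intro h x y hxy
    obtain ⟨x, rfl⟩ := e.surjective x
    obtain ⟨y, rfl⟩ := e.surjective y
    rw [tr_per, tr_per] at hxy
    exact (tr_same e g x y).mpr (h _ _ hxy)

lemma tr_sign (t : Perm X) : Perm.sign (e.permCongrHom t) = Perm.sign t :=
  Perm.sign_permCongr e t

lemma tr_split {g : Perm X} (h : Split g) : Split (e.permCongrHom g) := by
  intro t ht
  obtain ⟨t, rfl⟩ := e.permCongrHom.surjective t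
  rw [← map_mul, ← map_mul] at ht
  rw [tr_sign]
  exact h t (e.permCongrHom.injective ht)

lemma tr_conj (g h : Perm X) : (∃ t : Perm Y, t * e.permCongrHom g * t⁻¹ = e.permCongrHom h) ↔
    ∃ t : Perm X, t * g * t⁻¹ = h := by
  constructor
  · rintro ⟨t, ht⟩
    obtain ⟨t, rfl⟩ := e.permCongrHom.surjective t
    rw [← map_mul, ← map_inv, ← map_mul] at ht
    exact ⟨t, e.permCongrHom.injective ht⟩
  · rintro ⟨t, rfl⟩
    exact ⟨e.permCongrHom t, by rw [← map_mul, ← map_inv, ← map_mul]⟩

lemma tr_eps {g : Perm X} (hg : Split g) (h : Perm X) :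
    eps (e.permCongrHom g) (e.permCongrHom h) = eps g h := by
  by_cases hh : ∃ t : Perm X, t * g * t⁻¹ = h
  · obtain ⟨t, rfl⟩ := hh
    rw [map_mul, map_mul, map_inv, eps_conj (tr_split e hg), eps_conj hg, tr_sign]
  · rw [eps_zero hh, eps_zero (fun h' => hh ((tr_conj e g h).mp h'))]

/-- transport -/
def Cmp.transport {P : Finset ℕ} (C : Cmp X P) (e : X ≃ Y) : Cmp Y P where
  W := C.W
  φ := e.permCongrHom.toMonoidHom.comp C.φ
  inj := e.permCongrHom.injective.comp C.inj
  odd := C.odd
  lam := C.lam
  ord := C.ord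
  g := e.permCongrHom C.g
  split := tr_split e C.split
  dc := (tr_dc e C.g).mpr C.dc
  cent := by
    rw [← C.cent]
    refine Nat.card_congr (Equiv.subtypeEquiv e.permCongrHom.toEquiv fun t => ?_).symm
    change t * C.g = C.g * t ↔ e.permCongrHom t * e.permCongrHom C.g
      = e.permCongrHom C.g * e.permCongrHom t
    rw [← map_mul, ← map_mul, e.permCongrHom.injective.eq_iff]
  per m := by
    rw [← C.per m]
    constructor
    · rintro ⟨y, hy⟩
      obtain ⟨x, rfl⟩ := e.surjective y
      exact ⟨x, by rw [← hy, tr_per]⟩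
    · rintro ⟨x, hx⟩
      exact ⟨e x, by rw [tr_per, hx]⟩
  P1 w hw := (tr_conj e C.g (C.φ w)).mpr (C.P1 w ((tr_dc e (C.φ w)).mp hw))
  P2 := by
    rw [← C.P2]
    congr 2
    refine Finset.sum_congr rfl fun w _ => ?_
    congr 1
    exact tr_eps e C.split (C.φ w)

end transport

theorem exists_cmp' {Y : Type} [Fintype Y] [DecidableEq Y] (P : Finset ℕ) (hP : ∀ m ∈ P, Odd m)
    (hY : ∑ m ∈ P, m = Fintype.card Y) : Nonempty (Cmp Y P) := by
  obtain ⟨X, _, _, hX, ⟨C⟩⟩ := exists_cmp P hP
  exact ⟨C.transport (Fintype.equivOfCardEq (hX.trans hY))⟩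

section split

variable {X : Type} [Fintype X] [DecidableEq X]

lemma per_cycleOf {h : Perm X} {x : X} (hx : h x ≠ x) :
    minimalPeriod h x = (h.cycleOf x).support.card := by
  have hc := h.isCycle_cycleOf hx
  have hcx : h.cycleOf x x ≠ x := by rwa [Perm.cycleOf_apply_self]
  rw [← hc.orderOf]
  refine Nat.dvd_antisymm ?_ ?_
  · rw [← pow_eq_iff, ← Perm.cycleOf_pow_apply_self, pow_orderOf_eq_one]
    rfl
  · refine orderOf_dvd_of_pow_eq_one ((hc.pow_eq_one_iff' hcx).mpr ?_)
    rw [Perm.cycleOf_pow_apply_self, pow_per]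

/-- a permutation whose centralizer is even has different cycles of odd lengths -/
lemma split_facts {h : Perm X} (hs : Split h) : (∀ x, Odd (minimalPeriod h x)) ∧ DC h := by
  have h1 : Subgroup.centralizer {h} ≤ alternatingGroup X := by
    intro t ht
    rw [Subgroup.mem_centralizer_singleton_iff] at ht
    exact hs t ht
  obtain ⟨hodd, hfix, hcount⟩ := Equiv.Perm.centralizer_le_alternating_iff.mp h1
  have hmem : ∀ {x : X}, h x ≠ x → h.cycleOf x ∈ h.cycleFactorsFinset := fun hx =>
    Perm.cycleOf_mem_cycleFactorsFinset_iff.mpr (Perm.mem_support.mpr hx)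
  constructor
  · intro x
    by_cases hx : h x = x
    · have h2 : minimalPeriod h x = 1 := minimalPeriod_eq_one_iff_isFixedPt.mpr hx
      rw [h2]
      exact odd_one
    · rw [per_cycleOf hx]
      apply hodd
      rw [Perm.cycleType_def]
      exact Multiset.mem_map.mpr ⟨_, hmem hx, rfl⟩
  · intro x y hxy
    by_cases hx : h x = x
    · have h2 : minimalPeriod h x = 1 := minimalPeriod_eq_one_iff_isFixedPt.mpr hx
      rw [h2] at hxy
      have hy : h y = y := minimalPeriod_eq_one_iff_isFixedPt.mp hxy.symm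
      have hxy' : x = y := by
        by_contra hne
        rw [Perm.sum_cycleType] at hfix
        have h3 : h.support ⊆ (Finset.univ.erase x).erase y := by
          intro z hz
          rw [Perm.mem_support] at hz
          refine Finset.mem_erase.mpr ⟨?_, Finset.mem_erase.mpr ⟨?_, Finset.mem_univ z⟩⟩
          · rintro rfl
            exact hz hy
          · rintro rfl
            exact hz hx
        have h4 := Finset.card_le_card h3
        rw [Finset.card_erase_of_mem (Finset.mem_erase.mpr ⟨Ne.symm hne, Finset.mem_univ y⟩),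
          Finset.card_erase_of_mem (Finset.mem_univ x), Finset.card_univ] at h4
        have h5 : 1 < Fintype.card X := Fintype.one_lt_card_iff.mpr ⟨x, y, hne⟩
        omega
      rw [hxy']
    · have hy : h y ≠ y := by
        intro hy
        have h2 : minimalPeriod h y = 1 := minimalPeriod_eq_one_iff_isFixedPt.mpr hy
        rw [h2] at hxy
        exact hx (minimalPeriod_eq_one_iff_isFixedPt.mp hxy)
      rw [per_cycleOf hx, per_cycleOf hy] at hxy
      have h3 : (h.cycleFactorsFinset.1.map (Finset.card ∘ Perm.support)).Nodup :=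
        Multiset.nodup_iff_count_le_one.mpr hcount
      rw [Multiset.nodup_map_iff_inj_on h.cycleFactorsFinset.nodup] at h3
      have h4 := h3 _ (hmem hx) _ (hmem hy) hxy
      have h5 : y ∈ (h.cycleOf x).support := by
        rw [h4, Perm.mem_support_cycleOf_iff]
        exact ⟨Perm.SameCycle.refl _ _, Perm.mem_support.mpr hy⟩
      exact (Perm.mem_support_cycleOf_iff.mp h5).1

/-- powers with exponents prime to the order are conjugate -/
lemma pow_conj (h : Perm X) {k : ℕ} (hk : k.Coprime (orderOf h)) :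
    ∃ t : Perm X, t * h * t⁻¹ = h ^ k := by
  classical
  let S : Setoid X := Perm.SameCycle.setoid h
  let b : X → X := fun x => (Quotient.mk S x).out
  have hb : ∀ x, h.SameCycle (b x) x := fun x => Quotient.mk_out (s := S) x
  have hbe : ∀ x y, h.SameCycle x y → b x = b y := by
    intro x y hxy
    change (Quotient.mk S x).out = (Quotient.mk S y).out
    rw [Quotient.sound (s := S) hxy]
  have h1 : ∀ x, ∃ i : ℕ, (h ^ i) (b x) = x := fun x => same_nat (hb x)
  choose i hi using h1
  let f : X → X := fun x => (h ^ (k * i x)) (b x)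
  have hcop : ∀ x, IsCoprime (k : ℤ) (minimalPeriod h x : ℤ) := by
    intro x
    rw [Nat.isCoprime_iff_coprime]
    refine Nat.Coprime.coprime_dvd_right ?_ hk
    rw [← pow_eq_iff, pow_orderOf_eq_one]
    rfl
  have hinj : Function.Injective f := by
    intro x y hxy
    have e0 : h.SameCycle (f x) (f y) := by rw [hxy]
    have e1 : h.SameCycle (b x) (b y) := by
      have e2 : h.SameCycle (b x) (f x) := same_of_nat rfl
      have e3 : h.SameCycle (b y) (f y) := same_of_nat rfl
      exact e2.trans (e0.trans e3.symm)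
    have e4 : b x = b y := hbe x y ((hb x).symm.trans (e1.trans (hb y)))
    have e5 : (h ^ (k * i x)) (b x) = (h ^ (k * i y)) (b x) := by
      have := hxy
      change (h ^ (k * i x)) (b x) = (h ^ (k * i y)) (b y) at this
      rwa [← e4] at this
    rw [pow_eq_pow_iff] at e5
    push_cast at e5
    have e6 : (i x : ℤ) ≡ i y [ZMOD (minimalPeriod h (b x) : ℤ)] := by
      rw [Int.modEq_iff_dvd] at e5 ⊢
      rw [← mul_sub] at e5
      exact (hcop (b x)).symm.dvd_of_dvd_mul_left e5
    have e7 := (pow_eq_pow_iff h (b x) (i x) (i y)).mpr e6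
    rw [hi x, e4, hi y] at e7
    exact e7
  have hcomm : ∀ x, f (h x) = (h ^ k) (f x) := by
    intro x
    have e1 : b (h x) = b x := hbe _ _ (Perm.SameCycle.symm ⟨1, by simp⟩)
    have e2 := hi (h x)
    rw [e1] at e2
    have e3 : (h ^ (i x + 1)) (b x) = h x := by rw [pow_succ', Perm.mul_apply, hi]
    have e6 := (pow_eq_pow_iff h (b x) (i (h x)) (i x + 1)).mp (e2.trans e3.symm)
    change (h ^ (k * i (h x))) (b (h x)) = (h ^ k) ((h ^ (k * i x)) (b x))
    rw [e1, ← Perm.mul_apply, ← pow_add, pow_eq_pow_iff]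
    push_cast
    have e4 := e6.mul_left (k : ℤ)
    push_cast at e4
    have e5 : (k : ℤ) + k * i x = k * (i x + 1) := by ring
    rw [e5]
    exact e4
  let t : Perm X := Equiv.ofBijective f (Finite.injective_iff_bijective.mp hinj)
  refine ⟨t, ?_⟩
  ext y
  obtain ⟨x, rfl⟩ := t.surjective y
  change t (h (t.symm (t x))) = (h ^ k) (t x)
  rw [Equiv.symm_apply_apply]
  exact hcomm x

end split

end Run7.h200.SP
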