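import Pool.Agent.Run7.h200.SP.Main

/-!
# The characters `λ_P` of subgroups of odd order of the alternating groups
-/

set_option autoImplicit false
set_option linter.unusedSectionVars false

namespace Run7.h200.SP

open Equiv NumberField Pool.Agent.K4H74 Pool.Agent.K4H74.SK

/-- For every partition `P` of `n` into different odd parts with a product which is not a square:
a subgroup `H P` of `A_n` with a linear character `lam P`, two elements `g P` and `g' P` of `A_n`,
and a number `D P`. -/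
structure Sys (n : ℕ) where
  /-- the subgroups -/
  H : parts n → Subgroup (alternatingGroup (Fin n))
  /-- the linear characters -/
  lam : ∀ P, H P →* ℂˣ
  /-- the permutations -/
  g : parts n → alternatingGroup (Fin n)
  /-- the second permutations -/
  g' : parts n → alternatingGroup (Fin n)
  /-- the numbers -/
  D : parts n → ℂ

/-- `H P` has odd order, the order of `lam P` divides the product of the primes which divide the
product `N` of the parts of `P`, the cycle lengths of `g P` are the elements of `P`, `g' P` is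
conjugate to `g P` under an odd permutation, and `(D P) ^ 2 = (-1) ^ ((N - 1) / 2) N`. -/
def Sys.Good {n : ℕ} (s : Sys n) : Prop :=
  ∀ P, Odd (Nat.card (s.H P)) ∧
    (∀ k : ℕ, (∀ q : ℕ, q.Prime → q ∣ ∏ m ∈ P.1, m → q ∣ k) → ∀ h, s.lam P h ^ k = 1) ∧
    HasCycles (s.g P : Perm (Fin n)) P.1 ∧
    (∃ t : Perm (Fin n), Perm.sign t = -1 ∧ (s.g' P : Perm (Fin n)) = t * s.g P * t⁻¹) ∧
    s.D P ^ 2 = ((ZMod.χ₄ ((∏ m ∈ P.1, m : ℕ) : ZMod 4) : ℤ) : ℂ) * ((∏ m ∈ P.1, m : ℕ) : ℂ)

/-- The linear character `lam P` of `H P`, extended by zero to `A_n`. -/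
noncomputable def Sys.lam0 {n : ℕ} (s : Sys n) (P : parts n) (x : alternatingGroup (Fin n)) : ℂ :=
  Pool.Agent.R389.ext (s.H P) (fun y => ((s.lam P y : ℂˣ) : ℂ)) x

/-- Let `A_n` be identified with the Galois group of `L / K` by `e`. The linear character `lam P`,
as a character of the Galois group of `L / F`, where `F` is the fixed field of `H P` (the elements
of the Galois group of `L / F` are the elements of `H P`). -/
noncomputable def Sys.chr {n : ℕ} (s : Sys n) {E : Ext} (e : alternatingGroup (Fin n) ≃* G E)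
    (P : parts n) : Pair :=
  ⟨sub E ((s.H P).map (e : alternatingGroup (Fin n) →* G E)), fun h => s.lam0 P (e.symm (res h))⟩

lemma Sys.chr_eq {n : ℕ} (s : Sys n) {E : Ext} (e : alternatingGroup (Fin n) ≃* G E)
    (P : parts n) : s.chr e P =
      ⟨sub E ((s.H P).map (e : alternatingGroup (Fin n) →* G E)), chrOver E e (s.H P) (s.lam P)⟩ := by
  rw [← chrOver_eq]
  rfl


/-- The system of the `λ_P`, and the value of all inductive invariants. -/
theorem exists_sys (n : ℕ) (hn : 2 ≤ n) : ∃ s : Sys n, s.Good ∧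
    ∀ (E : Ext) (e : alternatingGroup (Fin n) ≃* G E) (χ : G E → ℂ), IsChr χ →
      ∃ (r : parts n → ℤ) (ψ ψ' : G E → ℂ), IsChr ψ ∧ IsChr ψ' ∧ RatVal ψ ∧ RatVal ψ' ∧
        (∀ P, χ (e (s.g P)) - χ (e (s.g' P)) = r P * s.D P) ∧
        ((∀ P, r P = 0) → RatVal χ) ∧
        (IsIrrChr χ → ∑ P, r P ^ 2 ≤ 1) ∧
        ∀ (M : Type) [CommGroup M] (B : ST.ArtinInvariant M),
          B.val E.K E.L χ * B.val E.K E.L ψ = B.val E.K E.L ψ' *
            ∏ P, B.val (s.chr e P).1.K (s.chr e P).1.L (s.chr e P).2 ^ r P := by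
  obtain ⟨H, lam, g, g', D, h0, hE⟩ := main (Fin n) (by rw [Fintype.card_fin]; exact hn) n
    (Fintype.card_fin n)
  refine ⟨⟨H, lam, g, g', D⟩, h0, fun E e χ hχ => ?_⟩
  obtain ⟨r, ψ, ψ', h1, h2, h3, h4, h5, h6, h7, h8⟩ := hE E e χ hχ
  refine ⟨r, ψ, ψ', h1, h2, h3, h4, h5, h6, h7, fun M _ B => ?_⟩
  rw [h8 M B]
  congr 1
  refine Finset.prod_congr rfl fun P _ => ?_
  rw [Sys.chr_eq]

end Run7.h200.SP
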