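import Pool.Agent.Run7.h200.SP.Perm

/-!
# Wreath products with a cyclic group of prime order
-/

set_option autoImplicit false
set_option linter.unusedSectionVars false

open Equiv Function

namespace Run7.h200.SP

variable {X : Type} [Fintype X] [DecidableEq X] {p : ℕ}

/-- the permutation `(x, j) ↦ (w x, j + f x)` -/
def wr (f : X → ZMod p) (w : Perm X) : Perm (X × ZMod p) where
  toFun y := (w y.1, y.2 + f y.1)
  invFun y := (w.symm y.1, y.2 - f (w.symm y.1))
  left_inv y := by simp
  right_inv y := by simp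

lemma wr_apply (f : X → ZMod p) (w : Perm X) (y : X × ZMod p) :
    wr f w y = (w y.1, y.2 + f y.1) := rfl

lemma wr_mul (f f' : X → ZMod p) (w w' : Perm X) :
    wr f w * wr f' w' = wr (fun x => f' x + f (w' x)) (w * w') := by
  refine Equiv.ext fun y => ?_
  change (w (w' y.1), y.2 + f' y.1 + f (w' y.1)) = (w (w' y.1), y.2 + (f' y.1 + f (w' y.1)))
  rw [add_assoc]

lemma wr_one : wr (fun _ : X => (0 : ZMod p)) (1 : Perm X) = 1 := by
  refine Equiv.ext fun y => ?_
  change (y.1, y.2 + 0) = y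
  rw [add_zero]

/-- the sum of `f` along the orbit -/
def sm (f : X → ZMod p) (w : Perm X) (k : ℕ) (x : X) : ZMod p :=
  ∑ i ∈ Finset.range k, f ((w ^ i) x)

lemma wr_pow (f : X → ZMod p) (w : Perm X) (k : ℕ) (x : X) (j : ZMod p) :
    ((wr f w) ^ k) (x, j) = ((w ^ k) x, j + sm f w k x) := by
  induction k with
  | zero => simp [sm]
  | succ k ih =>
    have h1 : sm f w (k + 1) x = sm f w k x + f ((w ^ k) x) := Finset.sum_range_succ _ _
    rw [pow_succ', Perm.mul_apply, ih, wr_apply, h1, pow_succ', Perm.mul_apply, add_assoc]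

lemma wr_fix (f : X → ZMod p) (w : Perm X) (k : ℕ) (x : X) (j : ZMod p) :
    ((wr f w) ^ k) (x, j) = (x, j) ↔ (w ^ k) x = x ∧ sm f w k x = 0 := by
  rw [wr_pow, Prod.mk.injEq]
  simp

/-- the sum over one period -/
noncomputable def cy (f : X → ZMod p) (w : Perm X) (x : X) : ZMod p :=
  sm f w (minimalPeriod w x) x

lemma wr_pow_per (f : X → ZMod p) (w : Perm X) (x : X) (j : ZMod p) (q : ℕ) :
    ((wr f w) ^ (minimalPeriod w x * q)) (x, j) = (x, j + q * cy f w x) := by
  induction q with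
  | zero => simp
  | succ q ih =>
    rw [mul_add, mul_one, add_comm, pow_add, Perm.mul_apply, ih, wr_pow, pow_per]
    change (x, _ + cy f w x) = _
    push_cast
    ring_nf

lemma sm_per (f : X → ZMod p) (w : Perm X) (x : X) (q : ℕ) :
    sm f w (minimalPeriod w x * q) x = q * cy f w x := by
  have h1 := wr_pow_per f w x 0 q
  rw [wr_pow, Prod.mk.injEq] at h1
  simpa using h1.2

lemma per_shift [NeZero p] (f : X → ZMod p) (w : Perm X) (x : X) (i j : ZMod p) :
    minimalPeriod (wr f w) (x, i) = minimalPeriod (wr f w) (x, j) := by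
  rw [minimalPeriod_eq_minimalPeriod_iff]
  intro n
  change ((wr f w : Perm (X × ZMod p)) : X × ZMod p → X × ZMod p)^[n] (x, i) = (x, i) ↔
    ((wr f w : Perm (X × ZMod p)) : X × ZMod p → X × ZMod p)^[n] (x, j) = (x, j)
  rw [coe_iter, wr_fix, wr_fix]

variable [Fact p.Prime]

lemma per_wr {f : X → ZMod p} {w : Perm X} {x : X} (hc : cy f w x ≠ 0) (j : ZMod p) :
    minimalPeriod (wr f w) (x, j) = minimalPeriod w x * p := by
  refine Nat.dvd_antisymm ?_ ?_
  · rw [← pow_eq_iff, wr_pow_per]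
    simp
  · have h1 := pow_per (wr f w) (x, j)
    rw [wr_fix] at h1
    obtain ⟨h2, h3⟩ := h1
    obtain ⟨q, hq⟩ := (pow_eq_iff w x _).mp h2
    rw [hq, sm_per] at h3
    rw [hq]
    have h4 : (q : ZMod p) = 0 := (mul_eq_zero.mp h3).resolve_right hc
    exact Nat.mul_dvd_mul_left _ ((ZMod.natCast_eq_zero_iff q p).mp h4)

lemma cy_ne {f : X → ZMod p} {w : Perm X} (h : DC (wr f w)) (x : X) : cy f w x ≠ 0 := by
  intro h0
  obtain ⟨k, hk⟩ := same_nat (h (x, 0) (x, 1) (per_shift f w x 0 1))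
  rw [wr_pow, Prod.mk.injEq] at hk
  obtain ⟨q, rfl⟩ := (pow_eq_iff w x _).mp hk.1
  have h2 := hk.2
  rw [sm_per, h0, mul_zero, add_zero] at h2
  exact zero_ne_one h2

lemma fst_same {f : X → ZMod p} {w : Perm X} {y z : X × ZMod p} (h : (wr f w).SameCycle y z) :
    w.SameCycle y.1 z.1 := by
  obtain ⟨k, hk⟩ := same_nat h
  obtain ⟨y1, y2⟩ := y
  rw [wr_pow] at hk
  exact same_of_nat (k := k) (by rw [← hk])

lemma dc_fst {f : X → ZMod p} {w : Perm X} (h : DC (wr f w)) : DC w := by
  intro x y hxy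
  exact fst_same (h (x, 0) (y, 0) (by rw [per_wr (cy_ne h x), per_wr (cy_ne h y), hxy]))

lemma wr_dc_trans {f : X → ZMod p} {w : Perm X} (ih : DC w → Trans w) (h : DC (wr f w)) :
    Trans (wr f w) := by
  have hw := ih (dc_fst h)
  rintro ⟨x, i⟩ ⟨y, j⟩
  refine h _ _ ?_
  rw [per_wr (cy_ne h x), per_wr (cy_ne h y), per_trans hw, per_trans hw]

lemma trans_fst {f : X → ZMod p} {w : Perm X} (h : Trans (wr f w)) : Trans w :=
  fun x y => fst_same (h (x, 0) (y, 0))

lemma sum_orbit {w : Perm X} (hw : Trans w) (f : X → ZMod p) (x : X) :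
    cy f w x = ∑ y, f y := by
  have h1 : Function.Bijective (fun i : Fin (minimalPeriod w x) => (w ^ (i : ℕ)) x) := by
    constructor
    · intro i j hij
      have h2 := (pow_eq_pow_iff w x i j).mp hij
      have h3 : (i : ℕ) ≡ j [MOD (minimalPeriod w x)] := (Int.natCast_modEq_iff).mp h2
      exact Fin.ext (Nat.ModEq.eq_of_lt_of_lt h3 i.2 j.2)
    · intro y
      obtain ⟨k, rfl⟩ := same_nat (hw x y)
      refine ⟨⟨k % minimalPeriod w x, Nat.mod_lt _ (per_pos w x)⟩, ?_⟩
      exact (pow_eq_pow_iff w x _ _).mpr (by exact_mod_cast Nat.mod_modEq k _)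
  rw [cy, sm, Finset.sum_range]
  exact h1.sum_comp f

lemma trans_wr_iff [Nonempty X] {w : Perm X} (hw : Trans w) (f : X → ZMod p) :
    Trans (wr f w) ↔ ∑ y, f y ≠ 0 := by
  obtain ⟨x⟩ := ‹Nonempty X›
  constructor
  · intro h
    rw [← sum_orbit hw f x]
    exact cy_ne h.dc x
  · intro h
    rw [← sum_orbit hw f x] at h
    refine trans_of_per (x := (x, 0)) ?_
    rw [per_wr h, per_trans hw, Fintype.card_prod, ZMod.card]

lemma sm_add (f : X → ZMod p) (w : Perm X) (a b : ℕ) (x : X) :
    sm f w (a + b) x = sm f w b x + sm f w a ((w ^ b) x) := by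
  have h1 := wr_pow f w (a + b) x 0
  rw [pow_add, Perm.mul_apply, wr_pow, wr_pow, Prod.mk.injEq] at h1
  simpa using h1.2.symm

/-- functions with sum zero are coboundaries -/
lemma exists_cob {w : Perm X} (hw : Trans w) (h : X → ZMod p) (h0 : ∑ y, h y = 0) :
    ∃ u : X → ZMod p, ∀ x, u (w x) = u x + h x := by
  rcases isEmpty_or_nonempty X with hX | ⟨⟨x₀⟩⟩
  · exact ⟨fun _ => 0, fun x => isEmptyElim x⟩
  have h1 : ∀ x, ∃ k : ℕ, (w ^ k) x₀ = x := fun x => same_nat (hw x₀ x)
  choose k hk using h1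
  have hc : cy h w x₀ = 0 := by rw [sum_orbit hw, h0]
  have h2 : ∀ n m : ℕ, n ≤ m → (w ^ n) x₀ = (w ^ m) x₀ → sm h w n x₀ = sm h w m x₀ := by
    intro n m hnm e
    obtain ⟨d, rfl⟩ := Nat.exists_eq_add_of_le hnm
    rw [pow_add, Perm.mul_apply, (w ^ n).injective.eq_iff, eq_comm] at e
    obtain ⟨q, hq⟩ := (pow_eq_iff w x₀ d).mp e
    rw [sm_add, e, hq, sm_per, hc, mul_zero, zero_add]
  have h3 : ∀ n : ℕ, sm h w n x₀ = sm h w (k ((w ^ n) x₀)) x₀ := by
    intro n
    rcases le_total n (k ((w ^ n) x₀)) with h4 | h4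
    · exact h2 _ _ h4 (hk _).symm
    · exact (h2 _ _ h4 (hk _)).symm
  refine ⟨fun x => sm h w (k x) x₀, fun x => ?_⟩
  have h4 := h3 (k x + 1)
  have h5 : (w ^ (k x + 1)) x₀ = w x := by rw [pow_succ', Perm.mul_apply, hk]
  rw [h5] at h4
  change sm h w (k (w x)) x₀ = sm h w (k x) x₀ + h x
  rw [← h4, sm, Finset.sum_range_succ, ← sm, hk]

lemma sign_pow_odd (s : ℤˣ) {k : ℕ} (hk : Odd k) : s ^ k = s := by
  rcases Int.units_eq_one_or s with h | h
  · rw [h, one_pow]
  · rw [h, hk.neg_one_pow]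

lemma sign_shift (hp : p ≠ 2) (u : X → ZMod p) : Perm.sign (wr u 1) = 1 := by
  refine odd_unit ((Fact.out : p.Prime).odd_of_ne_two hp) ?_
  have h1 : (wr u (1 : Perm X)) ^ p = 1 := by
    refine Equiv.ext fun y => ?_
    obtain ⟨x, j⟩ := y
    rw [wr_pow, one_pow, sm]
    simp
  rw [← map_pow, h1, map_one]

lemma sign_base (hp : p ≠ 2) (s : Perm X) :
    Perm.sign (wr (fun _ => (0 : ZMod p)) s) = Perm.sign s := by
  have h1 : wr (fun _ => (0 : ZMod p)) s = prodCongrLeft (fun _ : ZMod p => s) := by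
    refine Equiv.ext fun y => ?_
    change (s y.1, y.2 + 0) = (s y.1, y.2)
    rw [add_zero]
  rw [h1, Perm.sign_prodCongrLeft, Finset.prod_const, Finset.card_univ, ZMod.card]
  exact sign_pow_odd _ ((Fact.out : p.Prime).odd_of_ne_two hp)

/-- multiplication on the fibres -/
def mf (X : Type) [Fintype X] [DecidableEq X] {p : ℕ} (e : (ZMod p)ˣ) : Perm (X × ZMod p) :=
  prodCongrRight (fun _ : X => Units.mulLeft e)

lemma sign_mf (hX : Odd (Fintype.card X)) (e : (ZMod p)ˣ) :
    Perm.sign (mf X e) = Perm.sign (Units.mulLeft e) := by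
  rw [mf, Perm.sign_prodCongrRight, Finset.prod_const, Finset.card_univ]
  exact sign_pow_odd _ hX

/-- **Zolotarev's lemma** -/
lemma sign_mulLeft (hp : p ≠ 2) (e : (ZMod p)ˣ) :
    ((Perm.sign (Units.mulLeft e) : ℤˣ) : ℤ) = quadraticChar (ZMod p) e := by
  have hp2 : 2 < p := lt_of_le_of_ne (Fact.out : p.Prime).two_le (Ne.symm hp)
  let a : (ZMod p)ˣ →* ℤˣ := Perm.sign.comp
    { toFun := fun e => Units.mulLeft e
      map_one' := by
        refine Equiv.ext fun y => ?_
        change ((1 : (ZMod p)ˣ) : ZMod p) * y = y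
        simp
      map_mul' := fun x y => by
        refine Equiv.ext fun z => ?_
        change ((x * y : (ZMod p)ˣ) : ZMod p) * z = x * (y * z)
        rw [Units.val_mul, mul_assoc] }
  let b : (ZMod p)ˣ →* ℤˣ := (quadraticChar (ZMod p)).toUnitHom
  have hab : a = b := by
    obtain ⟨z, hz⟩ := IsCyclic.exists_generator (α := (ZMod p)ˣ)
    have hz1 : z ≠ 1 := by
      rintro rfl
      have h1 : ∀ x : (ZMod p)ˣ, x = 1 := fun x => by
        have := hz x
        rwa [Subgroup.zpowers_one_eq_bot, Subgroup.mem_bot] at this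
      have h2 : Fintype.card (ZMod p)ˣ = 1 := Fintype.card_eq_one_iff.mpr ⟨1, h1⟩
      rw [ZMod.card_units] at h2
      omega
    have hza : a z = -1 := by
      have hmove : ∀ y : ZMod p, (Units.mulLeft z : Perm (ZMod p)) y ≠ y ↔ y ≠ 0 := by
        intro y
        change (z : ZMod p) * y ≠ y ↔ y ≠ 0
        constructor
        · rintro h rfl
          exact h (mul_zero _)
        · intro h h'
          apply hz1
          have h3 : ((z : ZMod p) - 1) * y = 0 := by rw [sub_mul, h', one_mul, sub_self]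
          have h4 := (mul_eq_zero.mp h3).resolve_right h
          exact Units.ext (sub_eq_zero.mp h4)
      have hcyc : (Units.mulLeft z : Perm (ZMod p)).IsCycle := by
        refine ⟨1, (hmove 1).mpr one_ne_zero, fun y hy => ?_⟩
        have hy0 := (hmove y).mp hy
        obtain ⟨k, hk⟩ := Subgroup.mem_zpowers_iff.mp (hz (Units.mk0 y hy0))
        refine ⟨k, ?_⟩
        have h5 : ∀ k : ℤ, ((Units.mulLeft z : Perm (ZMod p)) ^ k) 1 = ((z ^ k : (ZMod p)ˣ) : ZMod p) := by
          intro k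
          induction k with
          | zero => simp
          | succ n ih =>
            rw [add_comm, zpow_add, zpow_one, Perm.mul_apply, ih, zpow_add, zpow_one, Units.val_mul]
            rfl
          | pred n ih =>
            rw [sub_eq_neg_add, zpow_add, zpow_neg_one, Perm.mul_apply, ih, zpow_add, zpow_neg_one,
              Units.val_mul]
            rfl
        rw [h5, hk]
        rfl
      have hsupp : (Units.mulLeft z : Perm (ZMod p)).support = Finset.univ.erase 0 := by
        ext y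
        rw [Perm.mem_support, hmove]
        simp
      change Perm.sign (Units.mulLeft z : Perm (ZMod p)) = -1
      rw [hcyc.sign, hsupp, Finset.card_erase_of_mem (Finset.mem_univ _), Finset.card_univ,
        ZMod.card]
      have h6 : Even (p - 1) := by
        obtain ⟨r, hr⟩ := (Fact.out : p.Prime).odd_of_ne_two hp
        exact ⟨r, by omega⟩
      rw [h6.neg_one_pow]
    have hzb : b z = -1 := by
      rcases Int.units_eq_one_or (b z) with h | h
      · exfalso
        have h1 : ∀ x, b x = 1 := by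
          intro x
          obtain ⟨k, rfl⟩ := Subgroup.mem_zpowers_iff.mp (hz x)
          rw [map_zpow, h, one_zpow]
        apply quadraticChar_ne_one (F := ZMod p) (by rw [ZMod.ringChar_zmod_n]; exact hp)
        ext x
        have h2 := congrArg Units.val (h1 x)
        rw [MulChar.coe_toUnitHom] at h2
        rw [h2]
        simp
      · exact h
    ext x
    obtain ⟨k, rfl⟩ := Subgroup.mem_zpowers_iff.mp (hz x)
    rw [map_zpow, map_zpow, hza, hzb]
  have h1 : ((a e : ℤˣ) : ℤ) = ((b e : ℤˣ) : ℤ) := by rw [hab]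
  rw [← MulChar.coe_toUnitHom]
  exact h1

end Run7.h200.SP
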